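import Pool.Agent.R331.K2.Dio

set_option autoImplicit false

namespace Pool.Agent.R331.K2

open Finset

theorem near_sub {y : ℝ × ℝ} {η : ℝ} {m m' : ℤ} {n n' : ℤ × ℤ} (h : Near y η m n) (h' : Near y η m' n') :
    Near y (2*η) (m - m') (n - n') := by
  obtain ⟨h1, h2⟩ := h
  obtain ⟨h1', h2'⟩ := h'
  constructor
  · have e : (((m - m' : ℤ)):ℝ) * y.1 - (((n - n').1 : ℤ) : ℝ) = (m * y.1 - n.1) - (m' * y.1 - n'.1) := by
      simp only [Prod.fst_sub]
      push_cast
      ring
    rw [e]
    exact lt_of_le_of_lt (abs_sub _ _) (by linarith)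
  · have e : (((m - m' : ℤ)):ℝ) * y.2 - (((n - n').2 : ℤ) : ℝ) = (m * y.2 - n.2) - (m' * y.2 - n'.2) := by
      simp only [Prod.snd_sub]
      push_cast
      ring
    rw [e]
    exact lt_of_le_of_lt (abs_sub _ _) (by linarith)

theorem int_eq_of_close {w η θ a : ℝ} {u n m : ℤ} {w' : ℤ} (hw : w = w') (hw0 : 0 < w)
    (h1 : |w * a - u| ≤ θ) (h2 : |(m:ℝ) * a - n| < 2 * η) (h3 : |(m:ℝ)| * θ < 1/2)
    (h4 : w * (2 * η) ≤ 1/2) : w' * n = m * u := by
  have e3 : |(w' * n - m * u : ℤ)| < (1:ℤ) := by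
    have : |((w' * n - m * u : ℤ) : ℝ)| < 1 := by
      push_cast
      rw [← hw]
      have e4 : w * n - m * u = m * (w * a - u) - w * (m * a - n) := by ring
      rw [e4]
      refine lt_of_le_of_lt (abs_sub _ _) ?_
      rw [abs_mul, abs_mul, abs_of_pos hw0]
      have e5 : |(m:ℝ)| * |w * a - u| ≤ |(m:ℝ)| * θ := mul_le_mul_of_nonneg_left h1 (abs_nonneg _)
      have e6 : w * |(m:ℝ) * a - n| < w * (2 * η) := mul_lt_mul_of_pos_left h2 hw0
      linarith
    exact_mod_cast this
  have := Int.abs_lt_one_iff.1 e3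
  linarith

theorem beta_count (y : ℝ × ℝ) (η : ℝ) (hη : 0 < η) (hη1 : η ≤ 1/8) (B : ℕ) (Z : Finset ℕ)
    (hZ : ∀ m ∈ Z, 1 ≤ m ∧ m ≤ B ∧ ∃ n, Near y η (m:ℤ) n ∧ ¬ Alpha y (m:ℤ) n) :
    (Z.card : ℝ) ≤ 12 * √η * B := by
  classical
  rcases Z.eq_empty_or_nonempty with rfl | ⟨m₁, hm₁⟩
  · simp; positivity
  have hsq : √η * √η = η := Real.mul_self_sqrt hη.le
  have hs0 : 0 < √η := Real.sqrt_pos.2 hη
  have hs1 : 2 * √η ≤ 1 := by
    nlinarith
  have hex : ∃ w : ℕ, 1 ≤ w ∧ ∃ u, Near y (2*η) (w:ℤ) u := by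
    obtain ⟨h1, h2, n, ⟨h3, h4⟩, h5⟩ := hZ m₁ hm₁
    exact ⟨m₁, h1, n, by linarith, by linarith⟩
  set w := Nat.find hex with hwdef
  obtain ⟨hw1, u, hu⟩ := Nat.find_spec hex
  have hmin : ∀ d : ℕ, 1 ≤ d → (∃ u, Near y (2*η) (d:ℤ) u) → w ≤ d := fun d hd h =>
    Nat.find_min' hex ⟨hd, h⟩
  rw [← hwdef] at hw1 hu
  have hwr : (1:ℝ) ≤ w := by exact_mod_cast hw1
  have hwm : ∀ m ∈ Z, w ≤ m := by
    intro m hm
    obtain ⟨h1, h2, n, ⟨h3, h4⟩, h5⟩ := hZ m hm
    exact hmin m h1 ⟨n, by linarith, by linarith⟩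
  have hwB : w ≤ B := (hwm m₁ hm₁).trans (hZ m₁ hm₁).2.1
  have hwBr : (w:ℝ) ≤ B := by exact_mod_cast hwB
  have hBpos : (0:ℝ) < B := by linarith
  rcases le_or_gt (1/32) ((w:ℝ)^2 * η) with hc | hc
  · -- separated case
    have hfib : ∀ j, (Z.filter (fun m => m / w = j)).card ≤ 1 := by
      intro j
      rw [Finset.card_le_one]
      have main : ∀ a b, a ∈ Z.filter (fun m => m / w = j) → b ∈ Z.filter (fun m => m / w = j) →
          ¬ a < b := by
        intro a b ha hb hab
        simp only [mem_filter] at ha hb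
        obtain ⟨h1, h2, n, h3, h5⟩ := hZ a ha.1
        obtain ⟨h1', h2', n', h3', h5'⟩ := hZ b hb.1
        have h6 := near_sub h3' h3
        have h7 : ((b:ℤ) - a) = ((b - a : ℕ) : ℤ) := by
          push_cast [hab.le]
          ring
        rw [h7] at h6
        have h8 := hmin (b - a) (by omega) ⟨_, h6⟩
        have h9 : a / w = b / w := ha.2.trans hb.2.symm
        have h10 := Nat.div_add_mod a w
        have h11 := Nat.div_add_mod b w
        rw [h9] at h10
        have h12 := Nat.mod_lt a (show w > 0 by omega)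
        have h13 := Nat.mod_lt b (show w > 0 by omega)
        omega
      intro a ha b hb
      rcases lt_trichotomy a b with h | h | h
      · exact absurd h (main a b ha hb)
      · exact h
      · exact absurd h (main b a hb ha)
    have h1 := card_window Z B w 1 (fun m hm => (hZ m hm).2.1) hfib
    have h2 : (Z.card:ℝ) ≤ B / w + 1 := by
      have h3 : (Z.card:ℝ) ≤ ((B / w : ℕ):ℝ) + 1 := by
        rw [one_mul] at h1
        exact_mod_cast h1
      have h4 : ((B / w : ℕ):ℝ) ≤ (B:ℝ) / w := Nat.cast_div_le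
      linarith
    have h3 : (1:ℝ) ≤ B / w := by
      rw [le_div_iff₀ (by linarith)]
      linarith
    have h4 : (B:ℝ) / w ≤ 6 * √η * B := by
      rw [div_le_iff₀ (by linarith)]
      have h5 : (1:ℝ) ≤ 6 * √η * w := by
        have h6 : (1:ℝ) ≤ (6 * √η * w)^2 := by
          have : (6 * √η * w)^2 = 36 * ((w:ℝ)^2 * (√η * √η)) := by ring
          rw [this, hsq]
          linarith
        nlinarith [mul_pos hs0 (show (0:ℝ) < w by linarith)]
      nlinarith
    linarith
  · -- the case of a very good approximation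
    have hwη : (w:ℝ) * (2 * η) < 1/16 := by nlinarith
    -- primitivity
    have hprim : Prim w u := by
      by_contra hcon
      set g := Nat.gcd w (Int.gcd u.1 u.2) with hg
      have hg1 : g ≠ 1 := hcon
      have hg0 : 0 < g := Nat.gcd_pos_of_pos_left _ (by omega)
      have hgw : g ∣ w := Nat.gcd_dvd_left _ _
      have hgu : g ∣ Int.gcd u.1 u.2 := Nat.gcd_dvd_right _ _
      have hgu1 : (g:ℤ) ∣ u.1 := (Int.natCast_dvd_natCast.2 hgu).trans (Int.gcd_dvd_left _ _)
      have hgu2 : (g:ℤ) ∣ u.2 := (Int.natCast_dvd_natCast.2 hgu).trans (Int.gcd_dvd_right _ _)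
      obtain ⟨w', hw'⟩ := hgw
      obtain ⟨a, ha⟩ := hgu1
      obtain ⟨b, hb⟩ := hgu2
      have hw'1 : 1 ≤ w' := by
        rcases Nat.eq_zero_or_pos w' with h | h
        · rw [h] at hw'; omega
        · exact h
      have hgr : (1:ℝ) ≤ g := by exact_mod_cast hg0
      have hcoord : ∀ (z : ℝ) (s t : ℤ), s = g * t → |((w:ℤ):ℝ) * z - s| < 2 * η →
          |((w':ℤ):ℝ) * z - t| < 2 * η := by
        intro z s t hst h
        have e : ((w:ℤ):ℝ) * z - s = g * (((w':ℤ):ℝ) * z - t) := by
          rw [hst, hw']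
          push_cast
          ring
        rw [e, abs_mul, abs_of_pos (by linarith : (0:ℝ) < g)] at h
        nlinarith [abs_nonneg (((w':ℤ):ℝ) * z - t)]
      have h1 := hmin w' hw'1 ⟨(a, b), hcoord _ _ _ ha hu.1, hcoord _ _ _ hb hu.2⟩
      have h2 : g * w' ≤ w' := by rw [← hw']; exact h1
      have h3 : 2 ≤ g := by omega
      nlinarith
    have hgood : Good y w u := by
      refine ⟨by omega, hprim, ?_, ?_⟩
      · have := hu.1
        push_cast at this
        nlinarith [mul_lt_mul_of_pos_left this (show (0:ℝ) < w by linarith)]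
      · have := hu.2
        push_cast at this
        nlinarith [mul_lt_mul_of_pos_left this (show (0:ℝ) < w by linarith)]
    set θ := max |(w:ℝ) * y.1 - u.1| |(w:ℝ) * y.2 - u.2| with hθ
    have hθ1 : |(w:ℝ) * y.1 - u.1| ≤ θ := le_max_left _ _
    have hθ2 : |(w:ℝ) * y.2 - u.2| ≤ θ := le_max_right _ _
    have hθη : θ < 2 * η := by
      rw [hθ]
      have := hu.1
      have := hu.2
      push_cast at *
      exact max_lt (by assumption) (by assumption)
    have hθ0 : 0 ≤ θ := (abs_nonneg _).trans hθ1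
    -- multiples
    have hmult : ∀ (m : ℤ) (n : ℤ × ℤ), Near y (2*η) m n → |(m:ℝ)| * θ < 1/2 →
        ∃ k : ℤ, m = k * w ∧ n.1 = k * u.1 ∧ n.2 = k * u.2 := by
      intro m n hn hm
      have hw0 : (0:ℝ) < w := by linarith
      have k1 := int_eq_of_close (w := (w:ℝ)) (w' := (w:ℤ)) (by simp) hw0 hθ1 hn.1 hm (by linarith)
      have k2 := int_eq_of_close (w := (w:ℝ)) (w' := (w:ℤ)) (by simp) hw0 hθ2 hn.2 hm (by linarith)
      obtain ⟨k, hk⟩ := prim_dvd hprim ⟨n.1, k1.symm⟩ ⟨n.2, k2.symm⟩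
      have hw0' : (w:ℤ) ≠ 0 := by exact_mod_cast (by omega : w ≠ 0)
      refine ⟨k, by rw [hk]; ring, ?_, ?_⟩
      · apply mul_left_cancel₀ hw0'
        rw [k1, hk]
        ring
      · apply mul_left_cancel₀ hw0'
        rw [k2, hk]
        ring
    have hfar : ∀ m ∈ Z, 1/2 ≤ (m:ℝ) * θ := by
      intro m hm
      by_contra hcon
      push Not at hcon
      obtain ⟨h1, h2, n, h3, h5⟩ := hZ m hm
      obtain ⟨k, hk1, hk2, hk3⟩ := hmult m n ⟨by linarith [h3.1], by linarith [h3.2]⟩ (by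
        push_cast
        rw [abs_of_nonneg (by positivity)]
        exact hcon)
      exact h5 ⟨w, u, k, hgood, hk1, hk2, hk3⟩
    have hBθ : 1/2 ≤ (B:ℝ) * θ := by
      have h1 := hfar m₁ hm₁
      have h2 : (m₁:ℝ) ≤ B := by exact_mod_cast (hZ m₁ hm₁).2.1
      nlinarith
    have hθpos : 0 < θ := by
      rcases hθ0.lt_or_eq with h | h
      · exact h
      · rw [← h] at hBθ
        norm_num at hBθ
    set H := ⌊1/(2*θ)⌋₊ with hH
    have hH1 : (H:ℝ) ≤ 1/(2*θ) := Nat.floor_le (by positivity)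
    have hH2 : 1/(4*θ) ≤ H := by
      have h1 : 1/(2*θ) < H + 1 := Nat.lt_floor_add_one _
      have h2 : (1:ℝ) ≤ 1/(4*θ) := by
        rw [le_div_iff₀ (by positivity)]
        linarith
      have h3 : 1/(2*θ) = 2 * (1/(4*θ)) := by
        field_simp
        norm_num
      linarith
    have hHpos : 0 < H := by
      have h2 : (1:ℝ) ≤ 1/(4*θ) := by
        rw [le_div_iff₀ (by positivity)]
        linarith
      have : (1:ℝ) ≤ H := by linarith
      exact_mod_cast this
    have hHθ : (H:ℝ) * θ ≤ 1/2 := by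
      rw [le_div_iff₀ (by positivity)] at hH1
      linarith
    set K := ⌈2*η/θ⌉₊ with hK
    have hK1 : (K:ℝ) ≤ 4*η/θ := by
      have h1 : (K:ℝ) < 2*η/θ + 1 := Nat.ceil_lt_add_one (by positivity)
      have h2 : (1:ℝ) ≤ 2*η/θ := by
        rw [le_div_iff₀ hθpos]
        linarith
      have h3 : 4*η/θ = 2 * (2*η/θ) := by ring
      linarith
    have hfib : ∀ j, (Z.filter (fun m => m / H = j)).card ≤ K := by
      intro j
      rcases (Z.filter (fun m => m / H = j)).eq_empty_or_nonempty with he | hne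
      · rw [he]; simp
      set F := Z.filter (fun m => m / H = j) with hF
      set m₀ := F.min' hne with hm₀
      have hm₀F : m₀ ∈ F := F.min'_mem hne
      have hm₀Z : m₀ ∈ Z := (mem_filter.1 hm₀F).1
      obtain ⟨-, -, n₀, hn₀, -⟩ := hZ m₀ hm₀Z
      have key : ∀ m ∈ F, ∃ k : ℕ, m = m₀ + k * w ∧ k < K := by
        intro m hm
        have hle : m₀ ≤ m := F.min'_le m hm
        have hmZ := mem_filter.1 hm
        obtain ⟨-, -, n, hn, -⟩ := hZ m hmZ.1
        have hnear := near_sub hn hn₀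
        have hdiff : (m:ℝ) - m₀ < H := by
          have h9 : m / H = m₀ / H := hmZ.2.trans (mem_filter.1 hm₀F).2.symm
          have h10 := Nat.div_add_mod m H
          have h11 := Nat.div_add_mod m₀ H
          rw [h9] at h10
          have h12 := Nat.mod_lt m hHpos
          have h13 : m < m₀ + H := by omega
          have : (m:ℝ) < m₀ + H := by exact_mod_cast h13
          linarith
        have hler : (m₀:ℝ) ≤ m := by exact_mod_cast hle
        obtain ⟨k, hk1, hk2, hk3⟩ := hmult _ _ hnear (by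
          push_cast
          rw [abs_of_nonneg (by linarith)]
          have : ((m:ℝ) - m₀) * θ < H * θ := mul_lt_mul_of_pos_right hdiff hθpos
          linarith)
        have hwz : (0:ℤ) < w := by exact_mod_cast (by omega : 0 < w)
        have hk0 : 0 ≤ k := by
          have h1 : (0:ℤ) ≤ k * w := by
            rw [← hk1]
            have : (m₀:ℤ) ≤ m := by exact_mod_cast hle
            linarith
          by_contra hneg
          push Not at hneg
          nlinarith
        obtain ⟨k', rfl⟩ := Int.eq_ofNat_of_zero_le hk0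
        refine ⟨k', ?_, ?_⟩
        · have h1 : (m:ℤ) = m₀ + k' * w := by linarith
          exact_mod_cast h1
        · -- k' θ < 2 η
          have hkθ : (k':ℝ) * θ < 2 * η := by
            have hc : ∀ (z : ℝ) (s t t₀ : ℤ), t - t₀ = (k':ℤ) * s → |((m:ℤ):ℝ) * z - t| < η →
                |((m₀:ℤ):ℝ) * z - t₀| < η → (k':ℝ) * |(w:ℝ) * z - s| < 2 * η := by
              intro z s t t₀ hst ht ht₀
              have e1 : (k':ℝ) * |(w:ℝ) * z - s| = |(k':ℝ) * ((w:ℝ) * z - s)| := by
                rw [abs_mul, abs_of_nonneg (by positivity : (0:ℝ) ≤ (k':ℝ))]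
              have e2 : (k':ℝ) * ((w:ℝ) * z - s) = (((m:ℤ):ℝ) * z - t) - (((m₀:ℤ):ℝ) * z - t₀) := by
                have e3 : ((t:ℝ) - t₀) = k' * s := by exact_mod_cast hst
                have e4 : ((m:ℝ) - m₀) = k' * w := by exact_mod_cast hk1
                push_cast
                linear_combination (-z) * e4 + e3
              rw [e1, e2]
              exact lt_of_le_of_lt (abs_sub _ _) (by linarith)
            have hc1 := hc y.1 u.1 n.1 n₀.1 hk2 hn.1 hn₀.1
            have hc2 := hc y.2 u.2 n.2 n₀.2 hk3 hn.2 hn₀.2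
            rw [hθ]
            rcases max_cases |(w:ℝ) * y.1 - u.1| |(w:ℝ) * y.2 - u.2| with ⟨h, -⟩ | ⟨h, -⟩
            · rw [h]; exact hc1
            · rw [h]; exact hc2
          have : (k':ℝ) < 2 * η / θ := by
            rw [lt_div_iff₀ hθpos]
            exact hkθ
          exact Nat.lt_ceil.2 this
      have hsub : F ⊆ (range K).image (fun k => m₀ + k * w) := by
        intro m hm
        obtain ⟨k, hk1, hk2⟩ := key m hm
        exact mem_image.2 ⟨k, mem_range.2 hk2, hk1.symm⟩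
      exact (card_le_card hsub).trans (card_image_le.trans (by simp))
    have h1 := card_window Z B H K (fun m hm => (hZ m hm).2.1) hfib
    have h2 : (Z.card:ℝ) ≤ K * (B / H + 1) := by
      have h3 : (Z.card:ℝ) ≤ (K:ℝ) * (((B / H : ℕ):ℝ) + 1) := by exact_mod_cast h1
      have h4 : ((B / H : ℕ):ℝ) ≤ (B:ℝ) / H := Nat.cast_div_le
      refine h3.trans (mul_le_mul_of_nonneg_left (by linarith) (by positivity))
    have hHr : (0:ℝ) < H := by exact_mod_cast hHpos
    have h3 : (B:ℝ) / H ≤ 4 * θ * B := by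
      rw [div_le_iff₀ hHr]
      rw [div_le_iff₀ (by positivity)] at hH2
      nlinarith
    have h4 : (B:ℝ)/H + 1 ≤ 6 * θ * B := by linarith
    have h5 : (Z.card:ℝ) ≤ (4*η/θ) * (6 * θ * B) := by
      refine h2.trans (mul_le_mul hK1 h4 (by positivity) (by positivity))
    have h6 : (4*η/θ) * (6 * θ * B) = 24 * η * B := by
      field_simp
      ring
    rw [h6] at h5
    refine h5.trans ?_
    have h7 : 2 * η ≤ √η := by
      nlinarith
    nlinarith

end Pool.Agent.R331.K2
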