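import Mathlib

set_option autoImplicit false

namespace Pool.Agent.R331.K2

open Finset

/-- `u/v` is in lowest terms -/
def Prim (v : ℕ) (u : ℤ × ℤ) : Prop := Nat.Coprime v (Int.gcd u.1 u.2)

/-- very good rational approximations `u/v` of `y` -/
def Good (y : ℝ × ℝ) (v : ℕ) (u : ℤ × ℤ) : Prop :=
  0 < v ∧ Prim v u ∧ (v:ℝ) * |v * y.1 - u.1| < 1/16 ∧ (v:ℝ) * |v * y.2 - u.2| < 1/16

/-- `n` is within `η` of `m y` -/
def Near (y : ℝ × ℝ) (η : ℝ) (m : ℤ) (n : ℤ × ℤ) : Prop :=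
  |(m:ℝ) * y.1 - n.1| < η ∧ |(m:ℝ) * y.2 - n.2| < η

/-- `(m, n)` is a multiple of a good approximation -/
def Alpha (y : ℝ × ℝ) (m : ℤ) (n : ℤ × ℤ) : Prop :=
  ∃ (v : ℕ) (u : ℤ × ℤ) (k : ℤ), Good y v u ∧ m = k * v ∧ n.1 = k * u.1 ∧ n.2 = k * u.2

theorem prim_dvd {v : ℕ} {u : ℤ × ℤ} (h : Prim v u) {k : ℤ} (h1 : (v:ℤ) ∣ k * u.1)
    (h2 : (v:ℤ) ∣ k * u.2) : (v:ℤ) ∣ k := by
  have h3 : (v:ℤ) ∣ ((Int.gcd (k*u.1) (k*u.2) : ℕ) : ℤ) := Int.dvd_coe_gcd h1 h2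
  rw [Int.gcd_mul_left] at h3
  have h4 : v ∣ k.natAbs * Int.gcd u.1 u.2 := by exact_mod_cast h3
  have h5 : v ∣ k.natAbs := Nat.Coprime.dvd_of_dvd_mul_right h h4
  exact Int.natCast_dvd.2 h5

theorem good_growth {y : ℝ × ℝ} {v v' : ℕ} {u u' : ℤ × ℤ} (h : Good y v u) (h' : Good y v' u')
    (hlt : v < v') : 2 * v ≤ v' := by
  obtain ⟨hv, hp, h1, h2⟩ := h
  obtain ⟨hv', hp', h1', h2'⟩ := h'
  by_contra hcon
  push Not at hcon
  have key : ∀ (a b : ℝ) (s t : ℤ), (v:ℝ) * |v * a - s| < 1/16 → (v':ℝ) * |v' * a - t| < 1/16 →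
      (v:ℤ) * t = v' * s := by
    intro a b s t e1 e2
    have hvr : (0:ℝ) < v := by exact_mod_cast hv
    have hvr' : (0:ℝ) < v' := by exact_mod_cast hv'
    have hle : (v:ℝ) ≤ v' := by exact_mod_cast hlt.le
    have hle2 : (v':ℝ) < 2 * v := by exact_mod_cast hcon
    have e3 : |((v:ℤ) * t - v' * s : ℤ)| < (1:ℤ) := by
      have : |(((v:ℤ) * t - v' * s : ℤ) : ℝ)| < 1 := by
        push_cast
        have e4 : (v:ℝ) * t - v' * s = v' * (v * a - s) - v * (v' * a - t) := by ring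
        rw [e4]
        have e5 : |(v':ℝ) * (v * a - s) - v * (v' * a - t)| ≤ v' * |v * a - s| + v * |v' * a - t| := by
          refine (abs_sub _ _).trans ?_
          rw [abs_mul, abs_mul, abs_of_pos hvr, abs_of_pos hvr']
        have e6 : (v':ℝ) * |v * a - s| ≤ 2 * (v * |v * a - s|) := by
          nlinarith [abs_nonneg ((v:ℝ) * a - s)]
        have e7 : (v:ℝ) * |v' * a - t| ≤ v' * |v' * a - t| := by
          nlinarith [abs_nonneg ((v':ℝ) * a - t)]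
        linarith
      exact_mod_cast this
    have := Int.abs_lt_one_iff.1 e3
    linarith
  have k1 := key y.1 0 u.1 u'.1 h1 h1'
  have k2 := key y.2 0 u.2 u'.2 h2 h2'
  have d1 : (v:ℤ) ∣ v' := prim_dvd hp ⟨u'.1, by linarith⟩ ⟨u'.2, by linarith⟩
  have d2 : (v':ℤ) ∣ v := prim_dvd hp' ⟨u.1, by linarith⟩ ⟨u.2, by linarith⟩
  have d1' : v ∣ v' := by exact_mod_cast d1
  have d2' : v' ∣ v := by exact_mod_cast d2
  have := Nat.dvd_antisymm d1' d2'
  omega

/-- the reciprocals of the denominators of the good approximations sum up to at most 2 -/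
theorem good_sum {y : ℝ × ℝ} (F : Finset ℕ) (hF : ∀ v ∈ F, ∃ u, Good y v u) :
    ∑ v ∈ F, (1:ℝ) / v ≤ 2 := by
  have hinj : Set.InjOn (Nat.log 2) (F : Set ℕ) := by
    intro v hv v' hv' heq
    by_contra hne
    have main : ∀ a b : ℕ, a ∈ F → b ∈ F → a < b → Nat.log 2 a < Nat.log 2 b := by
      intro a b ha hb hab
      obtain ⟨u, hu⟩ := hF a ha
      obtain ⟨u', hu'⟩ := hF b hb
      have h1 := good_growth hu hu' hab
      have h2 : 2 ^ (Nat.log 2 a) ≤ a := Nat.pow_log_le_self 2 hu.1.ne'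
      have h3 : 2 ^ (Nat.log 2 a + 1) ≤ b := by rw [pow_succ]; omega
      exact Nat.le_log_of_pow_le (by norm_num) h3
    rcases lt_or_gt_of_ne hne with h | h
    · exact absurd heq (main _ _ hv hv' h).ne
    · exact absurd heq (main _ _ hv' hv h).ne'
  have h1 : ∑ v ∈ F, (1:ℝ) / v ≤ ∑ v ∈ F, (1/2:ℝ) ^ (Nat.log 2 v) := by
    refine sum_le_sum fun v hv => ?_
    obtain ⟨u, hu⟩ := hF v hv
    have h2 : 2 ^ (Nat.log 2 v) ≤ v := Nat.pow_log_le_self 2 hu.1.ne'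
    have h3 : (2:ℝ) ^ (Nat.log 2 v) ≤ v := by exact_mod_cast h2
    rw [one_div_pow]
    exact one_div_le_one_div_of_le (by positivity) h3
  refine h1.trans ?_
  rw [← Finset.sum_image (f := fun i => (1/2:ℝ)^i) hinj]
  have h4 := Summable.sum_le_tsum (f := fun i : ℕ => (1/2:ℝ)^i) (F.image (Nat.log 2))
    (fun i _ => by positivity) summable_geometric_two
  rw [tsum_geometric_two] at h4
  exact h4

/-- fibres of `m ↦ m / H` -/
theorem card_window (Z : Finset ℕ) (B H N : ℕ) (hB : ∀ m ∈ Z, m ≤ B)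
    (hN : ∀ j, ((Z.filter (fun m => m / H = j)).card ≤ N)) : Z.card ≤ N * (B / H + 1) := by
  have h1 : Z.card ≤ N * (Z.image (fun m => m / H)).card :=
    Finset.card_le_mul_card_image Z N (fun j _ => hN j)
  refine h1.trans (Nat.mul_le_mul_left _ ?_)
  have h2 : Z.image (fun m => m / H) ⊆ Finset.range (B/H+1) := by
    intro j hj
    simp only [mem_image] at hj
    obtain ⟨m, hm, rfl⟩ := hj
    rw [mem_range]
    exact Nat.lt_succ_of_le (Nat.div_le_div_right (hB m hm))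
  simpa using card_le_card h2

end Pool.Agent.R331.K2
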