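import Pool.Agent.R331.K2.Meas

set_option autoImplicit false

namespace Pool.Agent.R331.K2

open Finset MeasureTheory Filter Topology

/-- points of the unit square outside of all sets with index at least `k` -/
def Bad (y : ℝ × ℝ) (ψ : ℕ → ℝ) (k : ℕ) : Set (ℝ × ℝ) :=
  (Set.Ico (0:ℝ) 1 ×ˢ Set.Ico (0:ℝ) 1) ∩ ⋂ q ∈ {q : ℕ | k ≤ q}, (E y ψ q)ᶜ

theorem measurableSet_Bad (y : ℝ × ℝ) (ψ : ℕ → ℝ) (k : ℕ) : MeasurableSet (Bad y ψ k) := by
  refine (measurableSet_Ico.prod measurableSet_Ico).inter ?_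
  exact MeasurableSet.biInter (Set.to_countable _) fun q _ => (measurableSet_E y ψ q).compl

theorem E_fin (y : ℝ × ℝ) (ψ : ℕ → ℝ) (hψ : ∀ q, 0 ≤ ψ q) (q : ℕ) : volume (E y ψ q) ≠ ⊤ := by
  rcases Nat.eq_zero_or_pos q with rfl | hq
  · have : E y ψ 0 = ∅ := by
      unfold E
      have h : Sel y 0 = ∅ := by
        apply Finset.eq_empty_of_forall_notMem
        intro a ha
        have := (mem_Sel.1 ha).1.1
        push_cast at this
        omega
      rw [h]
      simp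
    rw [this]
    simp
  · exact ne_top_of_le_ne_top ENNReal.ofReal_ne_top (vol_E_le y ψ hψ hq)

theorem bad_null (y : ℝ × ℝ) (ψ : ℕ → ℝ) (hψ : ∀ q, 0 ≤ ψ q) (hψ1 : ∀ q, ψ q ≤ 1/8)
    (hdiv : ¬ Summable (fun q => ψ q ^ 2)) (k : ℕ) : volume (Bad y ψ k) = 0 := by
  classical
  by_contra hne
  have hpos : 0 < volume (Bad y ψ k) := pos_iff_ne_zero.2 hne
  obtain ⟨K, hKsub, hKc, hKpos⟩ := (measurableSet_Bad y ψ k).exists_lt_isCompact hpos
  have hKm : MeasurableSet K := hKc.measurableSet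
  have hKfin : volume K ≠ ⊤ := hKc.measure_lt_top.ne
  set β := (volume K).toReal with hβ
  have hβ0 : 0 < β := ENNReal.toReal_pos hKpos.ne' hKfin
  set ε := β^2/819200 with hε
  have hε0 : 0 < ε := by positivity
  -- thickening
  have htend := tendsto_measure_cthickening_of_isCompact (μ := (volume : Measure (ℝ × ℝ))) hKc
  have hev : ∀ᶠ r in 𝓝 (0:ℝ), volume (Metric.cthickening r K) < volume K + ENNReal.ofReal ε := by
    apply htend.eventually_lt_const
    exact ENNReal.lt_add_right hKfin (by simpa using hε0)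
  obtain ⟨δ, hδ0, hδ⟩ := Metric.eventually_nhds_iff.1 hev
  obtain ⟨L, hL⟩ := exists_nat_gt (1/δ)
  have hLr : (0:ℝ) < L := lt_trans (by positivity) hL
  have hL0 : 0 < L := by exact_mod_cast hLr
  have hLδ : 1/(L:ℝ) < δ := by
    rw [div_lt_iff₀ hδ0] at hL
    rw [div_lt_iff₀ hLr]
    linarith
  have hthick : volume (Metric.cthickening (1/(L:ℝ)) K) < volume K + ENNReal.ofReal ε := by
    apply hδ
    rw [Real.dist_eq, sub_zero, abs_of_pos (by positivity)]
    exact hLδ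
  -- the grid
  set GG := ((range L) ×ˢ (range L)).filter (fun p => (Sq L p ∩ K).Nonempty) with hGG
  set G := ⋃ p ∈ GG, Sq L p with hG
  have hGm : MeasurableSet G := Finset.measurableSet_biUnion _ fun p _ => measurableSet_Sq L p
  have hKG : K ⊆ G := by
    intro x hx
    obtain ⟨⟨⟨h1, h2⟩, h3, h4⟩, -⟩ := hKsub hx
    have key : ∀ z : ℝ, 0 ≤ z → z < 1 → ∃ i : ℕ, i < L ∧ (i:ℝ)/L ≤ z ∧ z < (i+1:ℝ)/L := by
      intro z hz0 hz1
      refine ⟨⌊z * L⌋₊, ?_, ?_, ?_⟩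
      · rw [Nat.floor_lt (by positivity)]
        nlinarith
      · rw [div_le_iff₀ hLr]
        exact Nat.floor_le (by positivity)
      · rw [lt_div_iff₀ hLr]
        exact Nat.lt_floor_add_one _
    obtain ⟨i, hi1, hi2, hi3⟩ := key x.1 h1 h2
    obtain ⟨j, hj1, hj2, hj3⟩ := key x.2 h3 h4
    have hxSq : x ∈ Sq L (i, j) := ⟨⟨hi2, hi3⟩, ⟨hj2, hj3⟩⟩
    simp only [hG, Set.mem_iUnion, exists_prop]
    refine ⟨(i, j), ?_, hxSq⟩
    rw [hGG, mem_filter, mem_product, mem_range, mem_range]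
    exact ⟨⟨hi1, hj1⟩, x, hxSq, hx⟩
  have hGthick : G ⊆ Metric.cthickening (1/(L:ℝ)) K := by
    intro x hx
    simp only [hG, Set.mem_iUnion, exists_prop] at hx
    obtain ⟨p, hp, hxp⟩ := hx
    obtain ⟨z, hz1, hz2⟩ := (mem_filter.1 hp).2
    apply Metric.mem_cthickening_of_dist_le x z _ _ hz2
    obtain ⟨⟨a1, a2⟩, a3, a4⟩ := hxp
    obtain ⟨⟨b1, b2⟩, b3, b4⟩ := hz1
    rw [Prod.dist_eq, Real.dist_eq, Real.dist_eq]
    have e1 : ((p.1:ℝ)+1)/L = p.1/L + 1/L := by ring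
    have e2 : ((p.2:ℝ)+1)/L = p.2/L + 1/L := by ring
    rw [e1] at a2 b2
    rw [e2] at a4 b4
    refine max_le ?_ ?_ <;> rw [abs_le] <;> constructor <;> linarith
  have hGfin : volume G ≠ ⊤ := ne_top_of_le_ne_top
    (ne_top_of_lt (lt_of_lt_of_le hthick le_top)) (measure_mono hGthick)
  -- the small set
  set A := G \ K with hA
  have hAm : MeasurableSet A := hGm.diff hKm
  have hAle : (volume A).toReal ≤ ε := by
    have h1 : volume A = volume G - volume K := measure_diff hKG hKm.nullMeasurableSet hKfin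
    have h2 : volume A ≤ ENNReal.ofReal ε := by
      rw [h1]
      apply tsub_le_iff_left.2
      exact ((measure_mono hGthick).trans hthick.le)
    exact ENNReal.toReal_le_of_le_ofReal hε0.le h2
  have hAfin : volume A ≠ ⊤ := ne_top_of_le_ne_top hGfin (measure_mono Set.diff_subset)
  -- number of squares
  have hcard : β ≤ GG.card * (1/(L:ℝ)^2) := by
    have h1 : volume K ≤ ENNReal.ofReal (GG.card * (1/(L:ℝ)^2)) := by
      refine (measure_mono hKG).trans ((measure_biUnion_finset_le _ _).trans ?_)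
      rw [sum_congr rfl fun p _ => vol_Sq L hL0 p, sum_const, nsmul_eq_mul,
        ENNReal.ofReal_mul (by positivity), ENNReal.ofReal_natCast]
    exact ENNReal.toReal_le_of_le_ofReal (by positivity) h1
  -- choose the set S
  obtain ⟨k', hk'⟩ := exists_nat_gt (4 * (L:ℝ) * (|y.1| + |y.2| + 2))
  set k₁ := max (max k 1) (max (512 * L^3) k') with hk₁
  have hdiv' : ¬ Summable (fun n => ψ (n + k₁) ^ 2) := by
    rw [summable_nat_add_iff (f := fun n => ψ n ^ 2)]
    exact hdiv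
  have htop := (not_summable_iff_tendsto_nat_atTop_of_nonneg (fun n => sq_nonneg (ψ (n + k₁)))).1 hdiv'
  obtain ⟨N, hN⟩ := (htop.eventually_ge_atTop 16).exists
  set S := ((range N).image (fun n => n + k₁)).filter (fun q => 0 < ψ q) with hS
  have hSmem : ∀ q ∈ S, k₁ ≤ q ∧ 0 < ψ q := by
    intro q hq
    obtain ⟨h1, h2⟩ := mem_filter.1 hq
    obtain ⟨n, -, rfl⟩ := mem_image.1 h1
    exact ⟨by omega, h2⟩
  set Ψ := ∑ q ∈ S, ψ q ^ 2 with hΨ
  have hΨ16 : 16 ≤ Ψ := by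
    have h1 : ∑ q ∈ (range N).image (fun n => n + k₁), ψ q ^ 2 = ∑ n ∈ range N, ψ (n + k₁) ^ 2 :=
      sum_image (by intro a _ b _ h; simpa using h)
    have h2 : Ψ = ∑ q ∈ (range N).image (fun n => n + k₁), ψ q ^ 2 := by
      rw [hΨ, hS, sum_filter]
      refine sum_congr rfl fun q _ => ?_
      split_ifs with h
      · rfl
      · have : ψ q = 0 := le_antisymm (not_lt.1 h) (hψ q)
        rw [this]; norm_num
    rw [h2, h1]
    exact hN
  have hSpos : ∀ q ∈ S, 0 < q ∧ 0 < ψ q := fun q hq => ⟨by have := (hSmem q hq).1; omega, (hSmem q hq).2⟩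
  -- lower bound
  have hlow : β / 8 * Ψ ≤ ∑ q ∈ S, (volume (E y ψ q ∩ A)).toReal := by
    have h1 : ∀ q ∈ S, β / 8 * ψ q ^ 2 ≤ (volume (E y ψ q ∩ A)).toReal := by
      intro q hq
      obtain ⟨hqk, hqψ⟩ := hSmem q hq
      have hq1 : 512 * L^3 ≤ q := by omega
      have hq2 : 4 * (L:ℝ) * (|y.1| + |y.2| + 2) ≤ q := by
        have : (k':ℝ) ≤ q := by exact_mod_cast (by omega : k' ≤ q)
        linarith
      have hqk' : k ≤ q := by omega
      have hemp : E y ψ q ∩ K = ∅ := by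
        rw [← Set.disjoint_iff_inter_eq_empty, Set.disjoint_right]
        intro x hx
        have := (hKsub hx).2
        simp only [Set.mem_iInter] at this
        exact this q hqk'
      have hEA : E y ψ q ∩ A = E y ψ q ∩ G := by
        rw [hA, Set.inter_diff_distrib_left, hemp, Set.diff_empty]
      rw [hEA]
      have hdecomp : E y ψ q ∩ G = ⋃ p ∈ GG, (E y ψ q ∩ Sq L p) := by
        rw [hG, Set.inter_iUnion₂]
      have hvol : volume (E y ψ q ∩ G) = ∑ p ∈ GG, volume (E y ψ q ∩ Sq L p) := by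
        rw [hdecomp]
        apply measure_biUnion_finset
        · intro p _ p' _ hpp
          exact (Sq_disjoint L hL0 hpp).mono Set.inter_subset_right Set.inter_subset_right
        · intro p _
          exact (measurableSet_E y ψ q).inter (measurableSet_Sq L p)
      have hfinp : ∀ p ∈ GG, volume (E y ψ q ∩ Sq L p) ≠ ⊤ := fun p _ =>
        ne_top_of_le_ne_top (E_fin y ψ hψ q) (measure_mono Set.inter_subset_left)
      rw [hvol, ENNReal.toReal_sum hfinp]
      calc β / 8 * ψ q ^ 2 ≤ (GG.card * (1/(L:ℝ)^2)) / 8 * ψ q ^ 2 := by gcongr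
        _ = ∑ p ∈ GG, ψ q ^ 2 / (8 * (L:ℝ)^2) := by
            rw [sum_const, nsmul_eq_mul]
            field_simp
        _ ≤ ∑ p ∈ GG, (volume (E y ψ q ∩ Sq L p)).toReal := by
            refine sum_le_sum fun p hp => ?_
            have h5 := (mem_filter.1 hp).1
            rw [mem_product, mem_range, mem_range] at h5
            exact vol_box_lower y ψ hψ hψ1 L q hL0 hq1 hq2 p h5.1 h5.2
    rw [hΨ, mul_sum]
    exact sum_le_sum h1
  -- upper bound
  set s := 51200/β with hs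
  have hs0 : 0 < s := by positivity
  have hΨ0 : 0 < Ψ := by linarith
  have hup := cs (E y ψ) (measurableSet_E y ψ) (E_fin y ψ hψ) S A hAm hAfin (s * Ψ) (by positivity)
  have htot := total y ψ hψ S hSpos
  rw [← hΨ] at htot
  have htot' : ∑ r ∈ S, ∑ q ∈ S, (volume (E y ψ q ∩ E y ψ r)).toReal ≤ 3200 * Ψ^2 + 66052 * Ψ := htot
  have h1 : β / 8 * Ψ ≤ s * Ψ / 2 * ε + 1/(2 * (s * Ψ)) * (3200 * Ψ^2 + 66052 * Ψ) := by
    refine hlow.trans (hup.trans ?_)
    apply add_le_add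
    · exact mul_le_mul_of_nonneg_left hAle (by positivity)
    · exact mul_le_mul_of_nonneg_left htot' (by positivity)
  have h2 : s * Ψ / 2 * ε = β / 32 * Ψ := by
    rw [hs, hε]
    field_simp
    ring
  have h3 : 1/(2 * (s * Ψ)) * (3200 * Ψ^2 + 66052 * Ψ) = β / 32 * Ψ + 33026 * β / 51200 := by
    rw [hs]
    field_simp
    ring
  rw [h2, h3] at h1
  have h4 : β / 16 * 16 ≤ β / 16 * Ψ := mul_le_mul_of_nonneg_left hΨ16 (by positivity)
  linarith

theorem ball_gives {y : ℝ × ℝ} {ψ : ℕ → ℝ} {q : ℕ} {x : ℝ × ℝ} (hx : x ∈ E y ψ q) :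
    0 < q ∧ ∃ a : ℤ × ℤ, ‖(q : ℝ) • x - ((a.1 : ℝ), (a.2 : ℝ)) - y‖ < ψ q := by
  unfold E at hx
  simp only [Set.mem_iUnion, exists_prop] at hx
  obtain ⟨a, ha, hxa⟩ := hx
  have hq : 0 < q := by
    have h1 := (mem_Sel.1 ha).1.1
    have : (0:ℤ) < q := by linarith [h1.1, h1.2]
    exact_mod_cast this
  refine ⟨hq, a, ?_⟩
  have hqr : (0:ℝ) < q := by exact_mod_cast hq
  rw [Metric.mem_ball, dist_eq_norm, lt_div_iff₀ hqr] at hxa
  have e : (q : ℝ) • x - ((a.1 : ℝ), (a.2 : ℝ)) - y = (q:ℝ) • (x - ctr y q a) := by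
    unfold ctr
    ext
    · simp only [Prod.fst_sub, Prod.smul_fst, smul_eq_mul]
      field_simp
      ring
    · simp only [Prod.snd_sub, Prod.smul_snd, smul_eq_mul]
      field_simp
      ring
  rw [e, norm_smul, Real.norm_of_nonneg hqr.le, mul_comm]
  exact hxa

/-- the main theorem -/
theorem main (y : ℝ × ℝ) (ψ : ℕ → ℝ) (hψ : ∀ q, 0 ≤ ψ q) (hdiv : ¬ Summable (fun q : ℕ => ψ q ^ 2)) :
    ∀ᵐ x ∂(MeasureTheory.volume.restrict (Set.Icc (0 : ℝ × ℝ) 1)),
      {q : ℕ | 0 < q ∧ ∃ a : ℤ × ℤ,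
        ‖(q : ℝ) • x - ((a.1 : ℝ), (a.2 : ℝ)) - y‖ < ψ q}.Infinite := by
  set φ : ℕ → ℝ := fun q => min (ψ q) (1/8) with hφ
  have hφ0 : ∀ q, 0 ≤ φ q := fun q => le_min (hψ q) (by norm_num)
  have hφ1 : ∀ q, φ q ≤ 1/8 := fun q => min_le_right _ _
  have hφdiv : ¬ Summable (fun q => φ q ^ 2) := by
    intro hs
    apply hdiv
    have ht := hs.tendsto_cofinite_zero
    have hev : ∀ᶠ q in cofinite, φ q ^ 2 < (1/8)^2 := ht.eventually_lt_const (by norm_num)
    refine hs.congr_cofinite ?_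
    filter_upwards [hev] with q hq
    have h1 : φ q < 1/8 := lt_of_pow_lt_pow_left₀ 2 (by norm_num) hq
    have h2 : φ q = ψ q := by
      rw [hφ] at h1 ⊢
      simp only at h1 ⊢
      rcases min_choice (ψ q) (1/8) with h | h
      · exact h
      · rw [h] at h1; exact absurd h1 (lt_irrefl _)
    rw [h2]
  have hnull : volume (⋃ k, Bad y φ k) = 0 := by
    rw [measure_iUnion_null_iff]
    exact fun k => bad_null y φ hφ0 hφ1 hφdiv k
  have hIcc : (Set.Icc (0 : ℝ × ℝ) 1) =ᵐ[volume] (Set.Ico (0:ℝ) 1 ×ˢ Set.Ico (0:ℝ) 1 : Set (ℝ × ℝ)) := by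
    have h1 : (Set.Icc (0 : ℝ × ℝ) 1) = (Set.Icc (0:ℝ) 1 ×ˢ Set.Icc (0:ℝ) 1 : Set (ℝ × ℝ)) := by
      rw [Set.Icc_prod_Icc]; rfl
    rw [h1, Measure.volume_eq_prod]
    exact Measure.set_prod_ae_eq Ico_ae_eq_Icc.symm Ico_ae_eq_Icc.symm
  rw [Measure.restrict_congr_set hIcc]
  rw [ae_restrict_iff' (measurableSet_Ico.prod measurableSet_Ico)]
  have hae : ∀ᵐ x ∂(volume : Measure (ℝ × ℝ)), x ∉ ⋃ k, Bad y φ k := measure_eq_zero_iff_ae_notMem.1 hnull
  filter_upwards [hae] with x hx hxI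
  rw [Set.infinite_iff_exists_gt]
  intro k
  have h1 : x ∉ Bad y φ (k+1) := fun h => hx (Set.mem_iUnion.2 ⟨k+1, h⟩)
  unfold Bad at h1
  simp only [Set.mem_inter_iff, hxI, true_and, Set.mem_iInter, not_forall] at h1
  obtain ⟨q, hqk, hq⟩ := h1
  rw [Set.mem_compl_iff, not_not] at hq
  obtain ⟨h2, a, h3⟩ := ball_gives hq
  refine ⟨q, ⟨h2, a, lt_of_lt_of_le h3 (min_le_left _ _)⟩, ?_⟩
  exact hqk

end Pool.Agent.R331.K2
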