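import Pool.Agent.R331.K2.Row

set_option autoImplicit false

namespace Pool.Agent.R331.K2

open Finset MeasureTheory Filter Topology

/-- a form of the Cauchy-Schwarz inequality -/
theorem cs (F : ℕ → Set (ℝ × ℝ)) (hF : ∀ q, MeasurableSet (F q)) (hfin : ∀ q, volume (F q) ≠ ⊤)
    (S : Finset ℕ) (A : Set (ℝ × ℝ)) (hA : MeasurableSet A) (hAf : volume A ≠ ⊤) (t : ℝ) (ht : 0 < t) :
    ∑ q ∈ S, (volume (F q ∩ A)).toReal ≤ t/2 * (volume A).toReal +
      1/(2*t) * ∑ r ∈ S, ∑ q ∈ S, (volume (F q ∩ F r)).toReal := by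
  classical
  set ind : Set (ℝ × ℝ) → (ℝ × ℝ) → ℝ := fun B => B.indicator (fun _ => (1:ℝ)) with hind
  have hint : ∀ B : Set (ℝ × ℝ), MeasurableSet B → volume B ≠ ⊤ → Integrable (ind B) :=
    fun B h1 h2 => (integrable_indicator_iff h1).2 (integrableOn_const h2)
  have hval : ∀ B : Set (ℝ × ℝ), MeasurableSet B → ∫ x, ind B x = (volume B).toReal := by
    intro B hB
    rw [hind, integral_indicator hB]
    simp [Measure.real]
  have hmul : ∀ B C : Set (ℝ × ℝ), ∀ x, ind B x * ind C x = ind (B ∩ C) x := by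
    intro B C x
    simp only [hind, Set.indicator]
    by_cases h1 : x ∈ B <;> by_cases h2 : x ∈ C <;> simp [h1, h2]
  have hQA : ∀ q, volume (F q ∩ A) ≠ ⊤ := fun q => ne_top_of_le_ne_top hAf (measure_mono Set.inter_subset_right)
  have hQQ : ∀ q r, volume (F q ∩ F r) ≠ ⊤ := fun q r =>
    ne_top_of_le_ne_top (hfin q) (measure_mono Set.inter_subset_left)
  have hpt : ∀ x, ∑ q ∈ S, ind (F q ∩ A) x ≤ t/2 * ind A x + 1/(2*t) * ∑ r ∈ S, ∑ q ∈ S, ind (F q ∩ F r) x := by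
    intro x
    have e1 : ∑ q ∈ S, ind (F q ∩ A) x = (∑ q ∈ S, ind (F q) x) * ind A x := by
      rw [sum_mul]
      exact sum_congr rfl fun q _ => (hmul _ _ _).symm
    have e2 : ∑ r ∈ S, ∑ q ∈ S, ind (F q ∩ F r) x = (∑ q ∈ S, ind (F q) x)^2 := by
      rw [sq, sum_mul_sum, sum_comm]
      exact sum_congr rfl fun q _ => sum_congr rfl fun r _ => (hmul _ _ _).symm
    rw [e1, e2]
    set g := ∑ q ∈ S, ind (F q) x with hg
    by_cases hx : x ∈ A
    · have : ind A x = 1 := by simp [hind, hx]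
      rw [this]
      have h1 : 0 ≤ (g - t)^2 / (2*t) := by positivity
      have h2 : (g - t)^2 / (2*t) = 1/(2*t) * g^2 + t/2 - g := by
        field_simp
        ring
      linarith
    · have : ind A x = 0 := by simp [hind, hx]
      rw [this]
      have : 0 ≤ 1/(2*t) * g^2 := by positivity
      linarith
  have hl : ∫ x, ∑ q ∈ S, ind (F q ∩ A) x = ∑ q ∈ S, (volume (F q ∩ A)).toReal := by
    rw [integral_finset_sum _ (fun q _ => hint _ ((hF q).inter hA) (hQA q))]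
    exact sum_congr rfl fun q _ => hval _ ((hF q).inter hA)
  have hr : ∫ x, (t/2 * ind A x + 1/(2*t) * ∑ r ∈ S, ∑ q ∈ S, ind (F q ∩ F r) x) =
      t/2 * (volume A).toReal + 1/(2*t) * ∑ r ∈ S, ∑ q ∈ S, (volume (F q ∩ F r)).toReal := by
    rw [integral_add ((hint A hA hAf).const_mul _) ((integrable_finset_sum _ fun r _ =>
      integrable_finset_sum _ fun q _ => hint _ ((hF q).inter (hF r)) (hQQ q r)).const_mul _),
      integral_const_mul, integral_const_mul, hval A hA,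
      integral_finset_sum _ (fun r _ => integrable_finset_sum _ fun q _ => hint _ ((hF q).inter (hF r)) (hQQ q r))]
    congr 2
    refine sum_congr rfl fun r _ => ?_
    rw [integral_finset_sum _ (fun q _ => hint _ ((hF q).inter (hF r)) (hQQ q r))]
    exact sum_congr rfl fun q _ => hval _ ((hF q).inter (hF r))
  rw [← hl, ← hr]
  refine integral_mono (integrable_finset_sum _ fun q _ => hint _ ((hF q).inter hA) (hQA q)) ?_ hpt
  exact ((hint A hA hAf).const_mul _).add ((integrable_finset_sum _ fun r _ =>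
      integrable_finset_sum _ fun q _ => hint _ ((hF q).inter (hF r)) (hQQ q r)).const_mul _)

/-- grid squares -/
def Sq (L : ℕ) (p : ℕ × ℕ) : Set (ℝ × ℝ) :=
  Set.Ico ((p.1:ℝ)/L) ((p.1+1:ℝ)/L) ×ˢ Set.Ico ((p.2:ℝ)/L) ((p.2+1:ℝ)/L)

theorem measurableSet_Sq (L : ℕ) (p : ℕ × ℕ) : MeasurableSet (Sq L p) :=
  measurableSet_Ico.prod measurableSet_Ico

theorem vol_Sq (L : ℕ) (hL : 0 < L) (p : ℕ × ℕ) : volume (Sq L p) = ENNReal.ofReal (1/(L:ℝ)^2) := by
  have hLr : (0:ℝ) < L := by exact_mod_cast hL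
  unfold Sq
  rw [Measure.volume_eq_prod, Measure.prod_prod, Real.volume_Ico, Real.volume_Ico,
    ← ENNReal.ofReal_mul (by rw [← sub_div]; simp)]
  congr 1
  field_simp
  ring

theorem Sq_disjoint (L : ℕ) (hL : 0 < L) {p p' : ℕ × ℕ} (h : p ≠ p') : Disjoint (Sq L p) (Sq L p') := by
  have hLr : (0:ℝ) < L := by exact_mod_cast hL
  rw [Set.disjoint_left]
  intro x hx hx'
  apply h
  simp only [Sq, Set.mem_prod, Set.mem_Ico] at hx hx'
  obtain ⟨⟨a1, a2⟩, a3, a4⟩ := hx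
  obtain ⟨⟨b1, b2⟩, b3, b4⟩ := hx'
  have key : ∀ (z : ℝ) (i j : ℕ), (i:ℝ)/L ≤ z → z < (i+1:ℝ)/L → (j:ℝ)/L ≤ z → z < (j+1:ℝ)/L → i = j := by
    intro z i j c1 c2 c3 c4
    rw [div_le_iff₀ hLr] at c1 c3
    rw [lt_div_iff₀ hLr] at c2 c4
    have d1 : (i:ℝ) < j + 1 := by linarith
    have d2 : (j:ℝ) < i + 1 := by linarith
    have d1' : i < j + 1 := by exact_mod_cast d1
    have d2' : j < i + 1 := by exact_mod_cast d2
    omega
  exact Prod.ext (key _ _ _ a1 a2 b1 b2) (key _ _ _ a3 a4 b3 b4)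

theorem vol_box_lower (y : ℝ × ℝ) (ψ : ℕ → ℝ) (hψ : ∀ q, 0 ≤ ψ q) (hψ1 : ∀ q, ψ q ≤ 1/8) (L q : ℕ)
    (hL : 0 < L) (hq : 512 * L^3 ≤ q) (hqy : 4 * (L:ℝ) * (|y.1| + |y.2| + 2) ≤ q) (p : ℕ × ℕ)
    (hp1 : p.1 < L) (hp2 : p.2 < L) :
    ψ q ^ 2 / (8 * (L:ℝ)^2) ≤ (volume (E y ψ q ∩ Sq L p)).toReal := by
  classical
  have hLr : (0:ℝ) < L := by exact_mod_cast hL
  have hL1 : (1:ℝ) ≤ L := by exact_mod_cast hL
  have hq0 : 0 < q := lt_of_lt_of_le (by positivity) hq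
  have hqr : (0:ℝ) < q := by exact_mod_cast hq0
  have hq4 : 4 * L ≤ q := by
    have : 4 * L ≤ 512 * L^3 := by nlinarith [Nat.one_le_pow 2 L hL, sq_nonneg L]
    omega
  have hq4r : 4 * (L:ℝ) ≤ q := by exact_mod_cast hq4
  set X := q / (2*L) with hX
  have hXle : (X:ℝ) ≤ q / (2*L) := by
    have : ((q / (2*L) : ℕ) : ℝ) ≤ (q:ℝ) / ((2*L : ℕ) : ℝ) := Nat.cast_div_le
    push_cast at this
    exact this
  have hX2 : 2 ≤ X := by
    rw [hX, Nat.le_div_iff_mul_le (by positivity)]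
    linarith
  have hXq : q ≤ 4 * L * X := by
    have h1 : q < 2 * L * (X + 1) := by
      rw [hX]
      exact Nat.lt_mul_div_succ q (by positivity)
    nlinarith
  have hqL : |y.1| + |y.2| + 2 ≤ q / (4*L) := by
    rw [le_div_iff₀ (by positivity)]
    linarith
  -- starting points
  have hstart : ∀ i : ℕ, i < L → ∃ s : ℤ, 0 ≤ s ∧ s + X ≤ q ∧ (q:ℝ) * i / L + q/(4*L) ≤ s ∧
      (s:ℝ) + X ≤ q * (i+1) / L - q/(4*L) + 1 := by
    intro i hi
    refine ⟨⌈(q:ℝ) * i / L + q/(4*L)⌉, Int.ceil_nonneg (by positivity), ?_, Int.le_ceil _, ?_⟩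
    · have h1 : ((⌈(q:ℝ) * i / L + q/(4*L)⌉:ℤ):ℝ) < q * i / L + q/(4*L) + 1 := Int.ceil_lt_add_one _
      have h2 : ((i:ℝ) + 1) ≤ L := by exact_mod_cast hi
      have h3 : (q:ℝ) * i / L + q/(4*L) + 1 + q/(2*L) ≤ q := by
        have h4 : (q:ℝ) * (i + 1) / L ≤ q := by
          rw [div_le_iff₀ hLr]
          exact mul_le_mul_of_nonneg_left h2 hqr.le
        have h5 : (q:ℝ) * (i + 1) / L = q * i / L + 4 * (q/(4*L)) := by field_simp
        have h6 : (q:ℝ)/(2*L) = 2 * (q/(4*L)) := by field_simp; norm_num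
        have h7 : (1:ℝ) ≤ q/(4*L) := by
          rw [le_div_iff₀ (by positivity)]
          linarith
        linarith
      have h8 : ((⌈(q:ℝ) * i / L + q/(4*L)⌉:ℤ):ℝ) + X ≤ q := by linarith
      exact_mod_cast h8
    · have h1 : ((⌈(q:ℝ) * i / L + q/(4*L)⌉:ℤ):ℝ) < q * i / L + q/(4*L) + 1 := Int.ceil_lt_add_one _
      have h5 : (q:ℝ) * (i + 1) / L = q * i / L + 4 * (q/(4*L)) := by field_simp
      have h6 : (q:ℝ)/(2*L) = 2 * (q/(4*L)) := by field_simp; norm_num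
      linarith
  obtain ⟨s, hs1, hs2, hs3, hs4⟩ := hstart p.1 hp1
  obtain ⟨t, ht1, ht2, ht3, ht4⟩ := hstart p.2 hp2
  set G := (Sel y q).filter (fun a => (s ≤ a.1 ∧ a.1 < s + X) ∧ (t ≤ a.2 ∧ a.2 < t + X)) with hG
  have hGc : (X:ℝ)^2 ≤ 2 * (G.card : ℝ) := sel_box y q L X hL hq hXq s t hs1 hs2 ht1 ht2
  set ρ := ψ q / q with hρ
  have hρ0 : 0 ≤ ρ := div_nonneg (hψ q) hqr.le
  have hρq : ρ * q ≤ 1/8 := by
    rw [hρ, div_mul_cancel₀ _ hqr.ne']
    exact hψ1 q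
  have hsub : (⋃ a ∈ G, Metric.ball (ctr y q a) ρ) ⊆ E y ψ q ∩ Sq L p := by
    intro x hx
    simp only [Set.mem_iUnion, exists_prop] at hx
    obtain ⟨a, haG, hxa⟩ := hx
    obtain ⟨haS, ⟨c1, c2⟩, c3, c4⟩ := mem_filter.1 haG
    refine ⟨?_, ?_⟩
    · unfold E
      simp only [Set.mem_iUnion, exists_prop]
      exact ⟨a, haS, hxa⟩
    · rw [Metric.mem_ball, Prod.dist_eq, max_lt_iff, Real.dist_eq, Real.dist_eq] at hxa
      have key : ∀ (z y₁ y₂ : ℝ) (b σ : ℤ) (i : ℕ), |z - (b + y₁)/q| < ρ → σ ≤ b → b < σ + X →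
          (q:ℝ) * i / L + q/(4*L) ≤ σ → (σ:ℝ) + X ≤ q * (i+1) / L - q/(4*L) + 1 →
          |y₁| + |y₂| + 2 ≤ q/(4*L) → (i:ℝ)/L ≤ z ∧ z < (i+1:ℝ)/L := by
        intro z y₁ y₂ b σ i e1 e2 e3 e4 e5 e6
        rw [abs_lt] at e1
        have e2' : (σ:ℝ) ≤ b := by exact_mod_cast e2
        have e3' : (b:ℝ) + 1 ≤ σ + X := by exact_mod_cast e3
        have y1a := neg_abs_le y₁
        have y1b := le_abs_self y₁
        have y2a := abs_nonneg y₂
        have f1 : z * q > b + y₁ - 1/8 := by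
          have : (b + y₁)/q - ρ < z := by linarith
          have := mul_lt_mul_of_pos_right this hqr
          rw [sub_mul, div_mul_cancel₀ _ hqr.ne'] at this
          linarith
        have f2 : z * q < b + y₁ + 1/8 := by
          have : z < (b + y₁)/q + ρ := by linarith
          have := mul_lt_mul_of_pos_right this hqr
          rw [add_mul, div_mul_cancel₀ _ hqr.ne'] at this
          linarith
        constructor
        · have g1 : (q:ℝ) * i / L ≤ z * q := by linarith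
          have g2 : (q:ℝ) * i / L = (i:ℝ)/L * q := by ring
          rw [g2] at g1
          exact le_of_mul_le_mul_right g1 hqr
        · have g1 : z * q < (q:ℝ) * (i+1) / L := by linarith
          have g2 : (q:ℝ) * (i+1) / L = (i+1:ℝ)/L * q := by ring
          rw [g2] at g1
          exact lt_of_mul_lt_mul_right g1 hqr.le
      have k1 := key x.1 y.1 y.2 a.1 s p.1 hxa.1 c1 c2 hs3 hs4 hqL
      have k2 := key x.2 y.2 y.1 a.2 t p.2 hxa.2 c3 c4 ht3 ht4 (by linarith)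
      exact ⟨⟨k1.1, k1.2⟩, ⟨k2.1, k2.2⟩⟩
  have hdisj : Set.PairwiseDisjoint (G : Set (ℤ × ℤ)) (fun a => Metric.ball (ctr y q a) ρ) := by
    intro a ha b hb hab
    apply Metric.ball_disjoint_ball
    have key : ∀ (z : ℝ) (i j : ℤ), i ≠ j → ρ + ρ ≤ |(i + z)/q - (j + z)/q| := by
      intro z i j hij
      have e : (i + z)/q - (j + z)/q = ((i - j : ℤ):ℝ)/q := by push_cast; ring
      rw [e, abs_div, abs_of_pos hqr, le_div_iff₀ hqr]
      have h1 : (1:ℤ) ≤ |i - j| := Int.one_le_abs (sub_ne_zero.2 hij)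
      have h2 : (1:ℝ) ≤ |((i - j : ℤ):ℝ)| := by exact_mod_cast h1
      linarith
    unfold ctr
    rw [Prod.dist_eq, Real.dist_eq, Real.dist_eq]
    by_cases h1 : a.1 = b.1
    · have h2 : a.2 ≠ b.2 := fun h2 => hab (Prod.ext h1 h2)
      exact (key _ _ _ h2).trans (le_max_right _ _)
    · exact (key _ _ _ h1).trans (le_max_left _ _)
  have hvol : volume (⋃ a ∈ G, Metric.ball (ctr y q a) ρ) = ENNReal.ofReal (G.card * (2*ρ)^2) := by
    rw [measure_biUnion_finset hdisj (fun _ _ => measurableSet_ball)]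
    rw [sum_congr rfl fun a _ => vol_ball (ctr y q a) ρ hρ0, sum_const, nsmul_eq_mul,
      ENNReal.ofReal_mul (by positivity), ENNReal.ofReal_natCast]
  have hfin : volume (E y ψ q ∩ Sq L p) ≠ ⊤ :=
    ne_top_of_le_ne_top (by rw [vol_Sq L hL p]; exact ENNReal.ofReal_ne_top) (measure_mono Set.inter_subset_right)
  have h1 : ((G.card:ℝ) * (2*ρ)^2) ≤ (volume (E y ψ q ∩ Sq L p)).toReal := by
    have h2 := ENNReal.toReal_mono hfin (measure_mono hsub)
    rw [hvol, ENNReal.toReal_ofReal (by positivity)] at h2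
    exact h2
  refine le_trans ?_ h1
  have h3 : (q:ℝ) ≤ 4 * L * X := by exact_mod_cast hXq
  have h4 : (q:ℝ)^2 ≤ (4 * L * X)^2 := pow_le_pow_left₀ hqr.le h3 2
  have h5 : ψ q = ρ * q := by rw [hρ]; field_simp
  rw [h5, div_le_iff₀ (by positivity)]
  calc (ρ * q)^2 = ρ^2 * q^2 := by ring
    _ ≤ ρ^2 * (4 * L * X)^2 := mul_le_mul_of_nonneg_left h4 (by positivity)
    _ = 16 * L^2 * ρ^2 * X^2 := by ring
    _ ≤ 16 * L^2 * ρ^2 * (2 * G.card) := mul_le_mul_of_nonneg_left hGc (by positivity)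
    _ = G.card * (2*ρ)^2 * (8 * L^2) := by ring

end Pool.Agent.R331.K2
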