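import Pool.Agent.R331.K2.Sel

set_option autoImplicit false

namespace Pool.Agent.R331.K2

open Finset MeasureTheory

/-- centres -/
noncomputable def ctr (y : ℝ × ℝ) (q : ℕ) (a : ℤ × ℤ) : ℝ × ℝ := ((a.1 + y.1) / q, (a.2 + y.2) / q)

/-- the approximation sets -/
def E (y : ℝ × ℝ) (ψ : ℕ → ℝ) (q : ℕ) : Set (ℝ × ℝ) :=
  ⋃ a ∈ Sel y q, Metric.ball (ctr y q a) (ψ q / q)

theorem measurableSet_E (y : ℝ × ℝ) (ψ : ℕ → ℝ) (q : ℕ) : MeasurableSet (E y ψ q) :=
  Finset.measurableSet_biUnion _ fun _ _ => measurableSet_ball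

theorem vol_ball (c : ℝ × ℝ) (ρ : ℝ) (hρ : 0 ≤ ρ) : volume (Metric.ball c ρ) = ENNReal.ofReal ((2*ρ)^2) := by
  have h : Metric.ball c ρ = Metric.ball c.1 ρ ×ˢ Metric.ball c.2 ρ := (ball_prod_same c.1 c.2 ρ).symm
  rw [h, Measure.volume_eq_prod, Measure.prod_prod, Real.volume_ball, Real.volume_ball,
    ← ENNReal.ofReal_mul (by positivity), sq]

/-- near pairs of selected numerators -/
noncomputable def NP (y : ℝ × ℝ) (ψ : ℕ → ℝ) (q r : ℕ) : Finset ((ℤ × ℤ) × (ℤ × ℤ)) := by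
  classical
  exact ((Sel y q) ×ˢ (Sel y r)).filter (fun p =>
    |(p.1.1 + y.1) / q - (p.2.1 + y.1) / r| < ψ q / q + ψ r / r ∧
    |(p.1.2 + y.2) / q - (p.2.2 + y.2) / r| < ψ q / q + ψ r / r)

theorem mem_NP {y : ℝ × ℝ} {ψ : ℕ → ℝ} {q r : ℕ} {p : (ℤ × ℤ) × (ℤ × ℤ)} : p ∈ NP y ψ q r ↔
    (p.1 ∈ Sel y q ∧ p.2 ∈ Sel y r) ∧
    |(p.1.1 + y.1) / q - (p.2.1 + y.1) / r| < ψ q / q + ψ r / r ∧
    |(p.1.2 + y.2) / q - (p.2.2 + y.2) / r| < ψ q / q + ψ r / r := by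
  unfold NP
  simp only [mem_filter, mem_product]

theorem vol_inter (y : ℝ × ℝ) (ψ : ℕ → ℝ) (hψ : ∀ q, 0 ≤ ψ q) (q r : ℕ) :
    volume (E y ψ q ∩ E y ψ r) ≤ ENNReal.ofReal ((NP y ψ q r).card * (2 * min (ψ q / q) (ψ r / r))^2) := by
  have hmin : 0 ≤ min (ψ q / q) (ψ r / r) := by
    have := hψ q
    have := hψ r
    positivity
  have hsub : E y ψ q ∩ E y ψ r ⊆ ⋃ p ∈ NP y ψ q r,
      (Metric.ball (ctr y q p.1) (ψ q / q) ∩ Metric.ball (ctr y r p.2) (ψ r / r)) := by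
    rintro x ⟨hx1, hx2⟩
    simp only [E, Set.mem_iUnion, exists_prop] at hx1 hx2
    obtain ⟨a, ha, hxa⟩ := hx1
    obtain ⟨b, hb, hxb⟩ := hx2
    simp only [Set.mem_iUnion, exists_prop]
    refine ⟨(a, b), ?_, hxa, hxb⟩
    rw [mem_NP]
    refine ⟨⟨ha, hb⟩, ?_⟩
    have h1 : dist (ctr y q a) (ctr y r b) < ψ q / q + ψ r / r := by
      calc dist (ctr y q a) (ctr y r b) ≤ dist (ctr y q a) x + dist x (ctr y r b) := dist_triangle _ _ _
        _ < _ := add_lt_add (by rw [dist_comm]; exact hxa) hxb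
    rw [Prod.dist_eq, max_lt_iff, Real.dist_eq, Real.dist_eq] at h1
    exact h1
  refine (measure_mono hsub).trans ((measure_biUnion_finset_le _ _).trans ?_)
  calc ∑ p ∈ NP y ψ q r, volume (Metric.ball (ctr y q p.1) (ψ q / q) ∩ Metric.ball (ctr y r p.2) (ψ r / r))
      ≤ ∑ p ∈ NP y ψ q r, ENNReal.ofReal ((2 * min (ψ q / q) (ψ r / r))^2) := by
        refine sum_le_sum fun p _ => ?_
        rcases le_total (ψ q / q) (ψ r / r) with h | h
        · rw [min_eq_left h] at hmin ⊢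
          exact (measure_mono Set.inter_subset_left).trans (vol_ball _ _ hmin).le
        · rw [min_eq_right h] at hmin ⊢
          exact (measure_mono Set.inter_subset_right).trans (vol_ball _ _ hmin).le
    _ = _ := by
        rw [sum_const, nsmul_eq_mul, ENNReal.ofReal_mul (by positivity), ENNReal.ofReal_natCast]

/-- the vector `r' a - q' b` -/
def nmap (q' r' : ℕ) (p : (ℤ × ℤ) × (ℤ × ℤ)) : ℤ × ℤ :=
  (r' * p.1.1 - q' * p.2.1, r' * p.1.2 - q' * p.2.2)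

theorem card_le_image (d q' r' : ℕ) (hq' : 0 < q') (hcop : Nat.Coprime q' r')
    (P : Finset ((ℤ × ℤ) × (ℤ × ℤ)))
    (hP : ∀ p ∈ P, (0 ≤ p.1.1 ∧ p.1.1 < (d * q' : ℕ)) ∧ (0 ≤ p.1.2 ∧ p.1.2 < (d * q' : ℕ))) :
    P.card ≤ (P.image (nmap q' r')).card * d^2 := by
  classical
  have e : ((P.image (nmap q' r')) ×ˢ ((range d) ×ˢ (range d))).card = (P.image (nmap q' r')).card * d^2 := by
    rw [card_product, card_product, card_range, sq]
  rw [← e]
  have hq'z : (0:ℤ) < q' := by exact_mod_cast hq'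
  refine Finset.card_le_card_of_injOn
    (fun p => (nmap q' r' p, ((p.1.1 / q').toNat, (p.1.2 / q').toNat))) ?_ ?_
  · intro p hp
    obtain ⟨⟨h1, h2⟩, ⟨h3, h4⟩⟩ := hP p hp
    simp only [coe_product, Set.mem_prod, coe_range, Set.mem_Iio]
    refine ⟨by exact mem_coe.2 (mem_image_of_mem _ hp), ?_, ?_⟩
    · have h5 : p.1.1 / q' < d := by
        apply Int.ediv_lt_of_lt_mul hq'z
        push_cast at h2
        linarith
      have h6 : 0 ≤ p.1.1 / q' := Int.ediv_nonneg h1 hq'z.le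
      omega
    · have h5 : p.1.2 / q' < d := by
        apply Int.ediv_lt_of_lt_mul hq'z
        push_cast at h4
        linarith
      have h6 : 0 ≤ p.1.2 / q' := Int.ediv_nonneg h3 hq'z.le
      omega
  · intro p hp p' hp' heq
    obtain ⟨⟨h1, h2⟩, ⟨h3, h4⟩⟩ := hP p hp
    obtain ⟨⟨h1', h2'⟩, ⟨h3', h4'⟩⟩ := hP p' hp'
    simp only [Prod.mk.injEq, nmap] at heq
    obtain ⟨⟨e1, e2⟩, e3, e4⟩ := heq
    have key : ∀ a b a' b' : ℤ, 0 ≤ a → 0 ≤ a' → (r':ℤ) * a - q' * b = r' * a' - q' * b' →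
        (a / q').toNat = (a' / q').toNat → a = a' ∧ b = b' := by
      intro a b a' b' ha ha' k1 k2
      have k3 : (q':ℤ) ∣ r' * (a - a') := ⟨b - b', by linarith⟩
      have hg : Int.gcd (q':ℤ) r' = 1 := by simpa [Int.gcd] using hcop
      have k4 : (q':ℤ) ∣ (a - a') := Int.dvd_of_dvd_mul_right_of_gcd_one k3 hg
      have k5 : a % q' = a' % q' := Int.emod_eq_emod_iff_emod_sub_eq_zero.2 (Int.emod_eq_zero_of_dvd k4)
      have k6 : a / q' = a' / q' := by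
        have := Int.ediv_nonneg ha hq'z.le
        have := Int.ediv_nonneg ha' hq'z.le
        omega
      have k7 := Int.mul_ediv_add_emod a q'
      have k8 := Int.mul_ediv_add_emod a' q'
      rw [k6, k5] at k7
      have k9 : a = a' := by linarith
      refine ⟨k9, ?_⟩
      rw [k9] at k1
      have k10 : (q':ℤ) * b = q' * b' := by linarith
      exact mul_left_cancel₀ hq'z.ne' k10
    obtain ⟨f1, f2⟩ := key _ _ _ _ h1 h1' e1 e3
    obtain ⟨f3, f4⟩ := key _ _ _ _ h3 h3' e2 e4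
    exact Prod.ext (Prod.ext f1 f3) (Prod.ext f2 f4)

/-- number of integer vectors near a point -/
theorem card_near (y : ℝ × ℝ) (η : ℝ) (hη : 0 ≤ η) (m : ℤ) (N : Finset (ℤ × ℤ))
    (hN : ∀ n ∈ N, Near y η m n) : (N.card : ℝ) ≤ (2*η+1)^2 := by
  classical
  set I : ℝ → Finset ℤ := fun x => Icc ⌈x - η⌉ ⌊x + η⌋ with hI
  have hIc : ∀ x : ℝ, ((I x).card : ℝ) ≤ 2*η+1 := by
    intro x
    rw [hI]
    simp only [Int.card_Icc]
    have h1 : (⌊x+η⌋:ℝ) ≤ x + η := Int.floor_le _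
    have h2 : x - η ≤ (⌈x-η⌉:ℝ) := Int.le_ceil _
    rcases le_or_gt 0 (⌊x + η⌋ + 1 - ⌈x - η⌉) with h | h
    · have h3 : (((⌊x + η⌋ + 1 - ⌈x - η⌉).toNat : ℤ) : ℝ) = (⌊x + η⌋ + 1 - ⌈x - η⌉ : ℤ) := by
        rw [Int.toNat_of_nonneg h]
      have h4 : (((⌊x + η⌋ + 1 - ⌈x - η⌉).toNat : ℕ) : ℝ) = (⌊x + η⌋ + 1 - ⌈x - η⌉ : ℤ) := by
        rw [← h3]; push_cast; rfl
      rw [h4]
      push_cast
      linarith
    · rw [Int.toNat_of_nonpos h.le]
      push_cast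
      linarith
  have hsub : N ⊆ (I (m * y.1)) ×ˢ (I (m * y.2)) := by
    intro n hn
    obtain ⟨h1, h2⟩ := hN n hn
    rw [abs_lt] at h1 h2
    rw [mem_product, hI]
    simp only [mem_Icc]
    refine ⟨⟨?_, ?_⟩, ⟨?_, ?_⟩⟩
    · exact Int.ceil_le.2 (by linarith)
    · exact Int.le_floor.2 (by linarith)
    · exact Int.ceil_le.2 (by linarith)
    · exact Int.le_floor.2 (by linarith)
  have h1 : (N.card : ℝ) ≤ ((I (m * y.1)).card : ℝ) * (I (m * y.2)).card := by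
    have := card_le_card hsub
    rw [card_product] at this
    exact_mod_cast this
  calc (N.card : ℝ) ≤ ((I (m * y.1)).card : ℝ) * (I (m * y.2)).card := h1
    _ ≤ (2*η+1) * (2*η+1) := mul_le_mul (hIc _) (hIc _) (by positivity) (by positivity)
    _ = _ := by ring

theorem card_near_one (y : ℝ × ℝ) (η : ℝ) (hη1 : η ≤ 1/8) (m : ℤ) (N : Finset (ℤ × ℤ))
    (hN : ∀ n ∈ N, Near y η m n) : N.card ≤ 1 := by
  rw [card_le_one]
  intro n hn n' hn'
  obtain ⟨h1, h2⟩ := hN n hn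
  obtain ⟨h1', h2'⟩ := hN n' hn'
  have key : ∀ (x : ℝ) (s t : ℤ), |x - s| < η → |x - t| < η → s = t := by
    intro x s t e1 e2
    have e3 : |(s - t : ℤ)| < (1:ℤ) := by
      have : |((s - t : ℤ) : ℝ)| < 1 := by
        push_cast
        have e4 : (s:ℝ) - t = (x - t) - (x - s) := by ring
        rw [e4]
        refine lt_of_le_of_lt (abs_sub _ _) ?_
        linarith
      exact_mod_cast this
    have := Int.abs_lt_one_iff.1 e3
    linarith
  exact Prod.ext (key _ _ _ h1 h1') (key _ _ _ h2 h2')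

theorem near_of_NP {y : ℝ × ℝ} {ψ : ℕ → ℝ} {d q' r' : ℕ} (hd : 0 < d) (hq' : 0 < q') (hr' : 0 < r')
    {p : (ℤ × ℤ) × (ℤ × ℤ)} (hp : p ∈ NP y ψ (d*q') (d*r')) :
    Near y (r' * ψ (d*q') + q' * ψ (d*r')) ((q':ℤ) - r') (nmap q' r' p) := by
  obtain ⟨-, h1, h2⟩ := mem_NP.1 hp
  have hdr : (0:ℝ) < d := by exact_mod_cast hd
  have hqr : (0:ℝ) < q' := by exact_mod_cast hq'
  have hrr : (0:ℝ) < r' := by exact_mod_cast hr'
  have key : ∀ (x : ℝ) (a b : ℤ), |(a + x) / ((d*q' : ℕ):ℝ) - (b + x) / ((d*r' : ℕ):ℝ)| <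
      ψ (d*q') / ((d*q' : ℕ):ℝ) + ψ (d*r') / ((d*r' : ℕ):ℝ) →
      |(((q':ℤ) - r' : ℤ):ℝ) * x - ((r' * a - q' * b : ℤ):ℝ)| < r' * ψ (d*q') + q' * ψ (d*r') := by
    intro x a b h
    push_cast at h ⊢
    have e1 : ((q':ℝ) - r') * x - (r' * a - q' * b) =
        -((d * q' * r') * ((a + x) / (d * q') - (b + x) / (d * r'))) := by
      field_simp
      ring
    have e2 : (r':ℝ) * ψ (d*q') + q' * ψ (d*r') = (d * q' * r') *
        (ψ (d*q') / (d * q') + ψ (d*r') / (d * r')) := by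
      field_simp
    rw [e1, e2, abs_neg, abs_mul, abs_of_pos (by positivity : (0:ℝ) < d * q' * r')]
    exact mul_lt_mul_of_pos_left h (by positivity)
  exact ⟨key _ _ _ h1, key _ _ _ h2⟩

theorem card_NP_le {y : ℝ × ℝ} {ψ : ℕ → ℝ} {d q' r' : ℕ} (hq' : 0 < q')
    (hcop : Nat.Coprime q' r') :
    (NP y ψ (d*q') (d*r')).card ≤ ((NP y ψ (d*q') (d*r')).image (nmap q' r')).card * d^2 := by
  apply card_le_image d q' r' hq' hcop
  intro p hp
  exact (mem_Sel.1 (mem_NP.1 hp).1.1).1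

/-- pairs with many common multiples: the overlap is bounded by a constant times the product -/
theorem over_big {y : ℝ × ℝ} {ψ : ℕ → ℝ} (hψ : ∀ q, 0 ≤ ψ q) {d q' r' : ℕ} (hd : 0 < d)
    (hq' : 0 < q') (hr' : 0 < r') (hcop : Nat.Coprime q' r')
    (hη : 1/8 < r' * ψ (d*q') + q' * ψ (d*r')) :
    volume (E y ψ (d*q') ∩ E y ψ (d*r')) ≤ ENNReal.ofReal (1600 * ψ (d*q')^2 * ψ (d*r')^2) := by
  classical
  have hdr : (0:ℝ) < d := by exact_mod_cast hd
  have hqr : (0:ℝ) < q' := by exact_mod_cast hq'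
  have hrr : (0:ℝ) < r' := by exact_mod_cast hr'
  refine (vol_inter y ψ hψ _ _).trans (ENNReal.ofReal_le_ofReal ?_)
  set η := (r':ℝ) * ψ (d*q') + q' * ψ (d*r') with hηdef
  set s := ψ (d*q') with hs
  set t := ψ (d*r') with ht
  have hs0 : 0 ≤ s := hψ _
  have ht0 : 0 ≤ t := hψ _
  have h1 : ((NP y ψ (d*q') (d*r')).card : ℝ) ≤ (2*η+1)^2 * d^2 := by
    have h2 := card_NP_le (y := y) (ψ := ψ) (d := d) hq' hcop
    have h3 := card_near y η (by linarith) ((q':ℤ) - r') ((NP y ψ (d*q') (d*r')).image (nmap q' r'))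
      (fun n hn => by
        obtain ⟨p, hp, rfl⟩ := mem_image.1 hn
        exact near_of_NP hd hq' hr' hp)
    have h4 : ((NP y ψ (d*q') (d*r')).card : ℝ) ≤
        (((NP y ψ (d*q') (d*r')).image (nmap q' r')).card : ℝ) * d^2 := by exact_mod_cast h2
    exact h4.trans (mul_le_mul_of_nonneg_right h3 (by positivity))
  have h2 : (2*η+1)^2 ≤ (10*η)^2 := pow_le_pow_left₀ (by linarith) (by linarith) 2
  have h3 : ((NP y ψ (d*q') (d*r')).card : ℝ) ≤ (10*η)^2 * d^2 :=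
    h1.trans (mul_le_mul_of_nonneg_right h2 (by positivity))
  set μ := min (s / ((d*q' : ℕ):ℝ)) (t / ((d*r' : ℕ):ℝ)) with hμ
  have hμ0 : 0 ≤ μ := by positivity
  have h4 : η * d * μ ≤ 2 * s * t := by
    have e1 : η * d = (s / (d*q') + t / (d*r')) * (d * q' * (d * r')) := by
      rw [hηdef]
      field_simp
    have e2 : μ * (s / (d*q') + t / (d*r')) ≤ 2 * (s / (d*q')) * (t / (d*r')) := by
      have hμ1 : μ ≤ s / (d*q') := by rw [hμ]; push_cast; exact min_le_left _ _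
      have hμ2 : μ ≤ t / (d*r') := by rw [hμ]; push_cast; exact min_le_right _ _
      have ha : 0 ≤ s / ((d:ℝ)*q') := by positivity
      have hb : 0 ≤ t / ((d:ℝ)*r') := by positivity
      nlinarith
    calc η * d * μ = (μ * (s / (d*q') + t / (d*r'))) * (d * q' * (d * r')) := by rw [e1]; ring
      _ ≤ (2 * (s / (d*q')) * (t / (d*r'))) * (d * q' * (d * r')) :=
          mul_le_mul_of_nonneg_right e2 (by positivity)
      _ = 2 * s * t := by field_simp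
  have hη0 : 0 < η := by linarith
  calc ((NP y ψ (d*q') (d*r')).card : ℝ) * (2 * μ)^2 ≤ ((10*η)^2 * d^2) * (2*μ)^2 :=
        mul_le_mul_of_nonneg_right h3 (by positivity)
    _ = 400 * (η * d * μ)^2 := by ring
    _ ≤ 400 * (2 * s * t)^2 := by
        apply mul_le_mul_of_nonneg_left _ (by norm_num)
        exact pow_le_pow_left₀ (by positivity) h4 2
    _ = 1600 * s^2 * t^2 := by ring

/-- the other pairs -/
theorem over_small {y : ℝ × ℝ} {ψ : ℕ → ℝ} (hψ : ∀ q, 0 ≤ ψ q) {d q' r' : ℕ} (hd : 0 < d)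
    (hq' : 0 < q') (hr' : 0 < r') (hne : q' ≠ r') (hcop : Nat.Coprime q' r')
    (hη : r' * ψ (d*q') + q' * ψ (d*r') ≤ 1/8) (hle : ψ (d*q') ≤ ψ (d*r')) :
    volume (E y ψ (d*q') ∩ E y ψ (d*r')) = 0 ∨
    (volume (E y ψ (d*q') ∩ E y ψ (d*r')) ≤ ENNReal.ofReal (4 * ψ (d*r')^2 * (1 / ((max q' r' : ℕ):ℝ)^2)) ∧
      ((∃ v : ℕ, (∃ u, Good y v u) ∧ (v:ℤ) ∣ (q':ℤ) - r' ∧ q' ≤ 32 * v ∧ r' ≤ 32 * v) ∨
       ∃ n, Near y (r' * ψ (d*q') + q' * ψ (d*r')) ((q':ℤ) - r') n ∧ ¬ Alpha y ((q':ℤ) - r') n)) := by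
  classical
  have hdr : (0:ℝ) < d := by exact_mod_cast hd
  have hqr : (0:ℝ) < q' := by exact_mod_cast hq'
  have hrr : (0:ℝ) < r' := by exact_mod_cast hr'
  have hvol := vol_inter y ψ hψ (d*q') (d*r')
  rcases (NP y ψ (d*q') (d*r')).eq_empty_or_nonempty with he | ⟨p, hp⟩
  · left
    rw [he] at hvol
    simpa using hvol
  right
  set s := ψ (d*q') with hs
  set t := ψ (d*r') with ht
  have hs0 : 0 ≤ s := hψ _
  have ht0 : 0 ≤ t := hψ _
  have hnear := near_of_NP hd hq' hr' hp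
  refine ⟨?_, ?_⟩
  · refine hvol.trans (ENNReal.ofReal_le_ofReal ?_)
    have h1 : ((NP y ψ (d*q') (d*r')).card : ℝ) ≤ d^2 := by
      have h2 := card_NP_le (y := y) (ψ := ψ) (d := d) hq' hcop
      have h3 := card_near_one y _ hη ((q':ℤ) - r') ((NP y ψ (d*q') (d*r')).image (nmap q' r'))
        (fun n hn => by
          obtain ⟨p, hp, rfl⟩ := mem_image.1 hn
          exact near_of_NP hd hq' hr' hp)
      have h4 : (NP y ψ (d*q') (d*r')).card ≤ 1 * d^2 := h2.trans (Nat.mul_le_mul_right _ h3)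
      rw [one_mul] at h4
      exact_mod_cast h4
    set μ := min (s / ((d*q' : ℕ):ℝ)) (t / ((d*r' : ℕ):ℝ)) with hμ
    have hμ0 : 0 ≤ μ := by positivity
    have h4 : d * μ ≤ t / ((max q' r' : ℕ):ℝ) := by
      have hμ1 : μ ≤ s / (d*q') := by rw [hμ]; push_cast; exact min_le_left _ _
      have hμ2 : μ ≤ t / (d*r') := by rw [hμ]; push_cast; exact min_le_right _ _
      rcases le_total q' r' with h | h
      · rw [max_eq_right h]
        calc (d:ℝ) * μ ≤ d * (t / (d*r')) := mul_le_mul_of_nonneg_left hμ2 hdr.le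
          _ = t / r' := by field_simp
      · rw [max_eq_left h]
        calc (d:ℝ) * μ ≤ d * (s / (d*q')) := mul_le_mul_of_nonneg_left hμ1 hdr.le
          _ = s / q' := by field_simp
          _ ≤ t / q' := by gcongr
    calc ((NP y ψ (d*q') (d*r')).card : ℝ) * (2 * μ)^2 ≤ (d:ℝ)^2 * (2*μ)^2 :=
          mul_le_mul_of_nonneg_right h1 (by positivity)
      _ = 4 * (d * μ)^2 := by ring
      _ ≤ 4 * (t / ((max q' r' : ℕ):ℝ))^2 := by
          apply mul_le_mul_of_nonneg_left _ (by norm_num)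
          exact pow_le_pow_left₀ (by positivity) h4 2
      _ = _ := by rw [div_pow]; ring
  · by_cases hA : Alpha y ((q':ℤ) - r') (nmap q' r' p)
    · left
      obtain ⟨v, u, k, hgood, hk, hk1, hk2⟩ := hA
      refine ⟨v, ⟨u, hgood⟩, ⟨k, by rw [hk]; ring⟩, ?_⟩
      have hv0 : (v:ℤ) ≠ 0 := by exact_mod_cast hgood.1.ne'
      obtain ⟨⟨hpa, hpb⟩, -⟩ := mem_NP.1 hp
      have hSa := (mem_Sel.1 hpa).2
      have hSb := (mem_Sel.1 hpb).2
      have hk0 : k ≠ 0 := by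
        rintro rfl
        apply hne
        have : (q':ℤ) = r' := by linarith
        exact_mod_cast this
      have hgcd : Int.gcd (q':ℤ) r' = 1 := by simpa [Int.gcd] using hcop
      have hgcd' : Int.gcd (r':ℤ) q' = 1 := by rw [Int.gcd_comm]; exact hgcd
      have key : ∀ a b w : ℤ, (r':ℤ) * a - q' * b = k * w →
          (q':ℤ) ∣ v * a + w ∧ (r':ℤ) ∣ v * b + w := by
        intro a b w h
        have e : (r':ℤ) * (v * a + w) = q' * (v * b + w) := by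
          have e1 : (v:ℤ) * (r' * a - q' * b) = (k * v) * w := by rw [h]; ring
          rw [← hk] at e1
          linarith
        exact ⟨Int.dvd_of_dvd_mul_right_of_gcd_one ⟨_, e⟩ hgcd,
          Int.dvd_of_dvd_mul_right_of_gcd_one ⟨_, e.symm⟩ hgcd'⟩
      have k1 := key _ _ _ hk1
      have k2 := key _ _ _ hk2
      exact ⟨hSa v u q' hgood ⟨d, by ring⟩ k1.1 k2.1, hSb v u r' hgood ⟨d, by ring⟩ k1.2 k2.2⟩
    · right
      exact ⟨_, hnear, hA⟩

end Pool.Agent.R331.K2
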