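import Mathlib

set_option autoImplicit false

namespace Pool.Agent.R331.K2

open Finset

theorem geom_tail (I : Finset ℕ) (x : ℝ) (hx : 0 < x) (hI : ∀ i ∈ I, x < 2^i) :
    ∑ i ∈ I, (1/2:ℝ)^i ≤ 2 / x := by
  classical
  rcases I.eq_empty_or_nonempty with rfl | hne
  · simp; positivity
  set i₀ := I.min' hne with hi₀
  have h0 : ∀ i ∈ I, i₀ ≤ i := fun i hi => I.min'_le i hi
  have h1 : ∑ i ∈ I, (1/2:ℝ)^i = (1/2:ℝ)^i₀ * ∑ i ∈ I, (1/2:ℝ)^(i - i₀) := by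
    rw [mul_sum]
    refine sum_congr rfl fun i hi => ?_
    rw [← pow_add]
    congr 1
    have := h0 i hi
    omega
  have hinj : Set.InjOn (fun i => i - i₀) (I : Set ℕ) := by
    intro a ha b hb hab
    have := h0 a ha
    have := h0 b hb
    simp only at hab
    omega
  have h2 : ∑ i ∈ I, (1/2:ℝ)^(i - i₀) ≤ 2 := by
    rw [← Finset.sum_image (f := fun i => (1/2:ℝ)^i) hinj]
    have h4 := Summable.sum_le_tsum (f := fun i : ℕ => (1/2:ℝ)^i) (I.image (fun i => i - i₀))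
      (fun i _ => by positivity) summable_geometric_two
    rw [tsum_geometric_two] at h4
    exact h4
  have h3 : (1/2:ℝ)^i₀ ≤ 1 / x := by
    rw [one_div_pow]
    exact one_div_le_one_div_of_le hx (hI i₀ (I.min'_mem hne)).le
  rw [h1]
  calc (1/2:ℝ)^i₀ * ∑ i ∈ I, (1/2:ℝ)^(i - i₀) ≤ (1/x) * 2 :=
        mul_le_mul h3 h2 (sum_nonneg fun _ _ => by positivity) (by positivity)
    _ = 2 / x := by ring

/-- Summation over pairs `(a, b)` with `a ≤ X < 4 max (a, b)` and `|a - b|` in a thin set. -/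
theorem pair_sum (X κ : ℝ) (hX : 0 < X) (hκ : 0 ≤ κ) (Z : Set ℕ) (T : Finset (ℕ × ℕ))
    (hT : ∀ p ∈ T, 1 ≤ p.1 ∧ 1 ≤ p.2 ∧ p.1 ≠ p.2 ∧ (p.1:ℝ) ≤ X ∧ X / 4 < (max p.1 p.2 : ℕ) ∧
      ((p.1:ℤ) - p.2).natAbs ∈ Z)
    (hZ : ∀ (B : ℕ) (F : Finset ℕ), (∀ m ∈ F, m ∈ Z ∧ 1 ≤ m ∧ m ≤ B) → (F.card : ℝ) ≤ κ * B) :
    ∑ p ∈ T, (1:ℝ) / ((max p.1 p.2 : ℕ) : ℝ)^2 ≤ 128 * κ := by
  classical
  set f : ℕ × ℕ → ℕ := fun p => Nat.log 2 (max p.1 p.2) with hf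
  set I := T.image f with hI
  have hsplit : ∑ p ∈ T, (1:ℝ) / ((max p.1 p.2 : ℕ) : ℝ)^2 =
      ∑ i ∈ I, ∑ p ∈ T.filter (fun p => f p = i), (1:ℝ) / ((max p.1 p.2 : ℕ) : ℝ)^2 :=
    (sum_fiberwise_of_maps_to (fun p hp => mem_image_of_mem f hp) _).symm
  have hlog : ∀ p ∈ T, 2 ^ (f p) ≤ max p.1 p.2 ∧ max p.1 p.2 < 2 ^ (f p + 1) := by
    intro p hp
    obtain ⟨h1, h2, -⟩ := hT p hp
    have h3 : max p.1 p.2 ≠ 0 := by omega
    exact ⟨Nat.pow_log_le_self 2 h3, Nat.lt_pow_succ_log_self (by norm_num) _⟩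
  have hI8 : ∀ i ∈ I, X / 8 < 2 ^ i := by
    intro i hi
    obtain ⟨p, hp, rfl⟩ := mem_image.1 hi
    obtain ⟨-, -, -, -, h1, -⟩ := hT p hp
    obtain ⟨-, h2⟩ := hlog p hp
    have h3 : ((max p.1 p.2 : ℕ) : ℝ) < 2 ^ (f p + 1) := by exact_mod_cast h2
    rw [pow_succ] at h3
    linarith
  have hgroup : ∀ i ∈ I, ∑ p ∈ T.filter (fun p => f p = i), (1:ℝ) / ((max p.1 p.2 : ℕ) : ℝ)^2 ≤
      4 * κ * X * (1/2:ℝ)^i * 2 := by
    intro i hi
    set Ti := T.filter (fun p => f p = i) with hTi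
    have hw : ∀ p ∈ Ti, (1:ℝ) / ((max p.1 p.2 : ℕ) : ℝ)^2 ≤ (1/4:ℝ)^i := by
      intro p hp
      obtain ⟨hp1, hp2⟩ := mem_filter.1 hp
      obtain ⟨h1, -⟩ := hlog p hp1
      rw [hp2] at h1
      have h3 : (2:ℝ)^i ≤ ((max p.1 p.2 : ℕ) : ℝ) := by exact_mod_cast h1
      rw [one_div_pow]
      apply one_div_le_one_div_of_le (by positivity)
      calc (4:ℝ)^i = ((2:ℝ)^i)^2 := by rw [← pow_mul, mul_comm, pow_mul]; norm_num
        _ ≤ _ := pow_le_pow_left₀ (by positivity) h3 2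
    -- count the pairs
    set B := 2 ^ (i+1) with hB
    set F := (Icc 1 B).filter (fun m => m ∈ Z) with hF
    have hFc : (F.card : ℝ) ≤ κ * B := by
      have := hZ B F (fun m hm => by
        have h := mem_filter.1 hm
        exact ⟨h.2, mem_Icc.1 h.1⟩)
      exact this
    have hcard : Ti.card ≤ (Icc 1 ⌊X⌋₊).card * (F.card * 2) := by
      have e : ((Icc 1 ⌊X⌋₊) ×ˢ (F ×ˢ (univ : Finset Bool))).card = (Icc 1 ⌊X⌋₊).card * (F.card * 2) := by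
        rw [card_product, card_product]
        simp
      rw [← e]
      refine Finset.card_le_card_of_injOn
        (fun p => (p.1, ((p.1:ℤ) - p.2).natAbs, decide (p.1 < p.2))) ?_ ?_
      · intro p hp
        obtain ⟨hp1, hp2⟩ := mem_filter.1 hp
        obtain ⟨h1, h2, h3, h4, h5, h6⟩ := hT p hp1
        obtain ⟨-, h7⟩ := hlog p hp1
        rw [hp2] at h7
        simp only [coe_product, Set.mem_prod, coe_Icc, Set.mem_Icc, coe_univ, Set.mem_univ, and_true, hF,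
          coe_filter, mem_Icc, Set.mem_ofPred_eq]
        refine ⟨⟨h1, Nat.le_floor h4⟩, ⟨?_, ?_⟩, h6⟩
        · omega
        · rw [hB]; omega
      · intro p hp p' hp' heq
        simp only [Prod.mk.injEq] at heq
        obtain ⟨e1, e2, e3⟩ := heq
        have h3 := (hT p (mem_filter.1 hp).1).2.2.1
        have h3' := (hT p' (mem_filter.1 hp').1).2.2.1
        have e4 : (p.1 < p.2) ↔ (p'.1 < p'.2) := by simpa using e3
        apply Prod.ext e1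
        rcases lt_or_ge p.1 p.2 with h | h
        · have := e4.1 h
          omega
        · have : ¬ p'.1 < p'.2 := fun h' => absurd (e4.2 h') (by omega)
          omega
    have hcardr : (Ti.card : ℝ) ≤ X * (κ * B * 2) := by
      have h1 : (Ti.card : ℝ) ≤ (⌊X⌋₊ : ℝ) * (F.card * 2) := by
        have : Ti.card ≤ ⌊X⌋₊ * (F.card * 2) := by simpa using hcard
        exact_mod_cast this
      have h2 : (⌊X⌋₊ : ℝ) ≤ X := Nat.floor_le hX.le
      refine h1.trans (mul_le_mul h2 (by linarith) (by positivity) hX.le)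
    calc ∑ p ∈ Ti, (1:ℝ) / ((max p.1 p.2 : ℕ) : ℝ)^2 ≤ ∑ p ∈ Ti, (1/4:ℝ)^i := sum_le_sum hw
      _ = Ti.card * (1/4:ℝ)^i := by rw [sum_const, nsmul_eq_mul]
      _ ≤ X * (κ * B * 2) * (1/4:ℝ)^i := mul_le_mul_of_nonneg_right hcardr (by positivity)
      _ = 4 * κ * X * (1/2:ℝ)^i * 1 := by
          have hB' : (B:ℝ) = 2 * 2^i := by rw [hB]; push_cast; ring
          have h4 : (1/4:ℝ)^i = (1/2:ℝ)^i * (1/2:ℝ)^i := by rw [← mul_pow]; norm_num
          have h5 : (2:ℝ)^i * (1/2:ℝ)^i = 1 := by rw [← mul_pow]; norm_num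
          rw [hB', h4]
          calc X * (κ * (2 * 2^i) * 2) * ((1/2:ℝ)^i * (1/2:ℝ)^i)
              = 4 * κ * X * (1/2:ℝ)^i * ((2:ℝ)^i * (1/2:ℝ)^i) := by ring
            _ = _ := by rw [h5]
      _ ≤ 4 * κ * X * (1/2:ℝ)^i * 2 := by
          apply mul_le_mul_of_nonneg_left (by norm_num) (by positivity)
  rw [hsplit]
  calc ∑ i ∈ I, ∑ p ∈ T.filter (fun p => f p = i), (1:ℝ) / ((max p.1 p.2 : ℕ) : ℝ)^2
      ≤ ∑ i ∈ I, 4 * κ * X * (1/2:ℝ)^i * 2 := sum_le_sum hgroup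
    _ = 8 * κ * X * ∑ i ∈ I, (1/2:ℝ)^i := by
        rw [mul_sum]
        exact sum_congr rfl fun i _ => by ring
    _ ≤ 8 * κ * X * (2 / (X/8)) :=
        mul_le_mul_of_nonneg_left (geom_tail I (X/8) (by positivity) hI8) (by positivity)
    _ = 128 * κ := by field_simp; ring

end Pool.Agent.R331.K2
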