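import Pool.Agent.R331.K2.Over
import Pool.Agent.R331.K2.Beta
import Pool.Agent.R331.K2.Pair

set_option autoImplicit false

namespace Pool.Agent.R331.K2

open Finset MeasureTheory

theorem near_neg {y : ℝ × ℝ} {η : ℝ} {m : ℤ} {n : ℤ × ℤ} (h : Near y η m n) : Near y η (-m) (-n) := by
  obtain ⟨h1, h2⟩ := h
  constructor
  · simp only [Prod.fst_neg]
    push_cast
    have : -(m:ℝ) * y.1 - -(n.1:ℝ) = -(m * y.1 - n.1) := by ring
    rw [this, abs_neg]
    exact h1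
  · simp only [Prod.snd_neg]
    push_cast
    have : -(m:ℝ) * y.2 - -(n.2:ℝ) = -(m * y.2 - n.2) := by ring
    rw [this, abs_neg]
    exact h2

theorem alpha_neg {y : ℝ × ℝ} {m : ℤ} {n : ℤ × ℤ} (h : Alpha y (-m) (-n)) : Alpha y m n := by
  obtain ⟨v, u, k, h0, h1, h2, h3⟩ := h
  simp only [Prod.fst_neg, Prod.snd_neg] at h2 h3
  exact ⟨v, u, -k, h0, by linarith, by linarith, by linarith⟩

/-- differences which occur at level `δ` -/
def ZZ (y : ℝ × ℝ) (δ : ℝ) : Set ℕ := {m | ∃ n, Near y δ (m:ℤ) n ∧ ¬ Alpha y (m:ℤ) n}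

theorem mem_ZZ {y : ℝ × ℝ} {η δ : ℝ} (hδ : η ≤ δ) {m : ℤ}
    (h : ∃ n, Near y η m n ∧ ¬ Alpha y m n) : m.natAbs ∈ ZZ y δ := by
  obtain ⟨n, h1, h2⟩ := h
  rcases le_total 0 m with hm | hm
  · refine ⟨n, ?_, ?_⟩
    · rw [Int.natAbs_of_nonneg hm]
      exact ⟨h1.1.trans_le hδ, h1.2.trans_le hδ⟩
    · rw [Int.natAbs_of_nonneg hm]
      exact h2
  · refine ⟨-n, ?_, ?_⟩
    · rw [Int.ofNat_natAbs_of_nonpos hm]
      have := near_neg h1
      exact ⟨this.1.trans_le hδ, this.2.trans_le hδ⟩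
    · rw [Int.ofNat_natAbs_of_nonpos hm]
      intro h3
      exact h2 (alpha_neg h3)

/-- reduced parts -/
def q1 (q r : ℕ) : ℕ := q / Nat.gcd q r
def r1 (q r : ℕ) : ℕ := r / Nat.gcd q r

noncomputable def eta (ψ : ℕ → ℝ) (q r : ℕ) : ℝ := r1 q r * ψ q + q1 q r * ψ r

theorem red {q r : ℕ} (hq : 0 < q) (hr : 0 < r) : 0 < Nat.gcd q r ∧ 0 < q1 q r ∧ 0 < r1 q r ∧
    Nat.Coprime (q1 q r) (r1 q r) ∧ Nat.gcd q r * q1 q r = q ∧ Nat.gcd q r * r1 q r = r := by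
  have hg : 0 < Nat.gcd q r := Nat.gcd_pos_of_pos_left _ hq
  refine ⟨hg, Nat.div_pos (Nat.gcd_le_left _ hq) hg, Nat.div_pos (Nat.gcd_le_right _ hr) hg,
    Nat.coprime_div_gcd_div_gcd hg, Nat.mul_div_cancel' (Nat.gcd_dvd_left _ _),
    Nat.mul_div_cancel' (Nat.gcd_dvd_right _ _)⟩

theorem red_inj {r : ℕ} (hr : 0 < r) {q q' : ℕ} (hq : 0 < q) (hq' : 0 < q')
    (h1 : q1 q r = q1 q' r) (h2 : r1 q r = r1 q' r) : q = q' := by
  obtain ⟨a1, a2, a3, a4, a5, a6⟩ := red hq hr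
  obtain ⟨b1, b2, b3, b4, b5, b6⟩ := red hq' hr
  have h3 : Nat.gcd q r = Nat.gcd q' r := by
    rw [← h2] at b6
    exact Nat.eq_of_mul_eq_mul_right a3 (a6.trans b6.symm)
  rw [← a5, ← b5, h3, h1]

theorem red_ne {q r : ℕ} (hq : 0 < q) (hr : 0 < r) (hne : q ≠ r) : q1 q r ≠ r1 q r := by
  intro h
  obtain ⟨a1, a2, a3, a4, a5, a6⟩ := red hq hr
  exact hne (a5.symm.trans ((congrArg (fun t => Nat.gcd q r * t) h).trans a6))

/-- real overlap -/
noncomputable def ov (y : ℝ × ℝ) (ψ : ℕ → ℝ) (q r : ℕ) : ℝ := (volume (E y ψ q ∩ E y ψ r)).toReal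

def condA (y : ℝ × ℝ) (q r : ℕ) : Prop := ∃ v : ℕ, (∃ u, Good y v u) ∧
  (v:ℤ) ∣ (q1 q r:ℤ) - r1 q r ∧ q1 q r ≤ 32 * v ∧ r1 q r ≤ 32 * v

def condB (y : ℝ × ℝ) (ψ : ℕ → ℝ) (q r : ℕ) : Prop := eta ψ q r ≤ 1/8 ∧
  ∃ n, Near y (eta ψ q r) ((q1 q r:ℤ) - r1 q r) n ∧ ¬ Alpha y ((q1 q r:ℤ) - r1 q r) n

theorem ov_le (y : ℝ × ℝ) (ψ : ℕ → ℝ) (hψ : ∀ q, 0 ≤ ψ q) {q r : ℕ} (hq : 0 < q) (hr : 0 < r)
    (hne : q ≠ r) (hle : ψ q ≤ ψ r) :
    ov y ψ q r ≤ 1600 * ψ q ^ 2 * ψ r ^ 2 ∨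
    (ov y ψ q r ≤ 4 * ψ r ^ 2 * (1 / ((max (q1 q r) (r1 q r) : ℕ) : ℝ)^2) ∧
      (condA y q r ∨ condB y ψ q r)) := by
  obtain ⟨a1, a2, a3, a4, a5, a6⟩ := red hq hr
  have hne' : q1 q r ≠ r1 q r := red_ne hq hr hne
  rcases lt_or_ge (1/8) (eta ψ q r) with h | h
  · left
    have := over_big (y := y) (ψ := ψ) hψ a1 a2 a3 a4 (by rw [a5, a6]; exact h)
    rw [a5, a6] at this
    refine ENNReal.toReal_le_of_le_ofReal ?_ this
    have := hψ q
    have := hψ r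
    positivity
  · have := over_small (y := y) (ψ := ψ) hψ a1 a2 a3 hne' a4 (by rw [a5, a6]; exact h)
      (by rw [a5, a6]; exact hle)
    rw [a5, a6] at this
    rcases this with h0 | ⟨h1, h2⟩
    · left
      unfold ov
      rw [h0]
      have := hψ q
      have := hψ r
      simp
      positivity
    · right
      refine ⟨ENNReal.toReal_le_of_le_ofReal ?_ h1, ?_⟩
      · have := hψ r
        positivity
      · rcases h2 with h2 | h2
        · left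
          exact h2
        · right
          exact ⟨h, h2⟩

theorem sumA (y : ℝ × ℝ) {r : ℕ} (hr : 0 < r) (A : Finset ℕ) (hA : ∀ q ∈ A, 0 < q ∧ q ≠ r ∧ condA y q r) :
    ∑ q ∈ A, (1:ℝ) / ((max (q1 q r) (r1 q r) : ℕ) : ℝ)^2 ≤ 2112 := by
  classical
  choose! v hv using fun q (hq : q ∈ A) => (hA q hq).2.2
  set V := A.image v with hV
  have hVg : ∀ w ∈ V, ∃ u, Good y w u := by
    intro w hw
    obtain ⟨q, hq, rfl⟩ := mem_image.1 hw
    exact (hv q hq).1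
  rw [← sum_fiberwise_of_maps_to (t := V) (g := v) (fun q hq => mem_image_of_mem v hq)]
  have hgroup : ∀ w ∈ V, ∑ q ∈ A.filter (fun q => v q = w), (1:ℝ) / ((max (q1 q r) (r1 q r) : ℕ) : ℝ)^2 ≤
      1056 * (1 / (w:ℝ)) := by
    intro w hw
    obtain ⟨u, hu⟩ := hVg w hw
    have hw0 : 0 < w := hu.1
    have hwr : (0:ℝ) < w := by exact_mod_cast hw0
    have hcard : (A.filter (fun q => v q = w)).card ≤ (32 * w) * 33 := by
      have e : ((Icc 1 (32*w)) ×ˢ (range 33)).card = (32 * w) * 33 := by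
        rw [card_product]; simp
      rw [← e]
      refine Finset.card_le_card_of_injOn (fun q => (q1 q r, r1 q r / w)) ?_ ?_
      · intro q hq
        obtain ⟨hq1, hq2⟩ := mem_filter.1 hq
        obtain ⟨-, h1, h2, h3⟩ := hv q hq1
        rw [hq2] at h1 h2 h3
        obtain ⟨a1, a2, a3, a4, a5, a6⟩ := red (hA q hq1).1 hr
        simp only [coe_product, Set.mem_prod, coe_Icc, Set.mem_Icc, coe_range, Set.mem_Iio]
        refine ⟨⟨a2, h2⟩, ?_⟩
        rw [Nat.div_lt_iff_lt_mul hw0]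
        omega
      · intro q hq q' hq' heq
        obtain ⟨hq1, hq2⟩ := mem_filter.1 hq
        obtain ⟨hq1', hq2'⟩ := mem_filter.1 hq'
        obtain ⟨-, h1, h2, h3⟩ := hv q hq1
        obtain ⟨-, h1', h2', h3'⟩ := hv q' hq1'
        rw [hq2] at h1
        rw [hq2'] at h1'
        simp only [Prod.mk.injEq] at heq
        obtain ⟨e1, e2⟩ := heq
        have h4 : (w:ℤ) ∣ (r1 q r : ℤ) - r1 q' r := by
          have := dvd_sub h1' h1
          have e : ((q1 q' r : ℤ) - r1 q' r) - ((q1 q r : ℤ) - r1 q r) = (r1 q r : ℤ) - r1 q' r := by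
            rw [e1]; ring
          rwa [e] at this
        have h5 : (r1 q r) % w = (r1 q' r) % w := by
          have h10 : (r1 q r : ℤ) % w = (r1 q' r : ℤ) % w :=
            Int.emod_eq_emod_iff_emod_sub_eq_zero.2 (Int.emod_eq_zero_of_dvd h4)
          exact_mod_cast h10
        have h6 : r1 q r = r1 q' r := by
          have k1 := Nat.div_add_mod (r1 q r) w
          have k2 := Nat.div_add_mod (r1 q' r) w
          rw [e2, h5] at k1
          omega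
        exact red_inj hr (hA q hq1).1 (hA q' hq1').1 e1 h6
    have hterm : ∀ q ∈ A.filter (fun q => v q = w), (1:ℝ) / ((max (q1 q r) (r1 q r) : ℕ) : ℝ)^2 ≤
        1 / (w:ℝ)^2 := by
      intro q hq
      obtain ⟨hq1, hq2⟩ := mem_filter.1 hq
      obtain ⟨-, h1, h2, h3⟩ := hv q hq1
      rw [hq2] at h1
      obtain ⟨a1, a2, a3, a4, a5, a6⟩ := red (hA q hq1).1 hr
      have hne' : q1 q r ≠ r1 q r := red_ne (hA q hq1).1 hr (hA q hq1).2.1
      have h4 : (w:ℤ) ≤ |(q1 q r : ℤ) - r1 q r| := by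
        apply Int.le_of_dvd (abs_pos.2 (by
          intro h
          apply hne'
          have : (q1 q r : ℤ) = r1 q r := by linarith
          exact_mod_cast this)) ((dvd_abs _ _).2 h1)
      have h5 : w ≤ max (q1 q r) (r1 q r) := by
        rcases le_total (q1 q r) (r1 q r) with h | h
        · rw [abs_of_nonpos (by
            have : (q1 q r : ℤ) ≤ r1 q r := by exact_mod_cast h
            linarith)] at h4
          omega
        · rw [abs_of_nonneg (by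
            have : (r1 q r : ℤ) ≤ q1 q r := by exact_mod_cast h
            linarith)] at h4
          omega
      have h6 : (w:ℝ) ≤ ((max (q1 q r) (r1 q r) : ℕ) : ℝ) := by exact_mod_cast h5
      apply one_div_le_one_div_of_le (by positivity)
      exact pow_le_pow_left₀ hwr.le h6 2
    calc ∑ q ∈ A.filter (fun q => v q = w), (1:ℝ) / ((max (q1 q r) (r1 q r) : ℕ) : ℝ)^2
        ≤ ∑ q ∈ A.filter (fun q => v q = w), 1 / (w:ℝ)^2 := sum_le_sum hterm
      _ = (A.filter (fun q => v q = w)).card * (1 / (w:ℝ)^2) := by rw [sum_const, nsmul_eq_mul]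
      _ ≤ ((32 * w) * 33) * (1 / (w:ℝ)^2) := by
          apply mul_le_mul_of_nonneg_right _ (by positivity)
          exact_mod_cast hcard
      _ = 1056 * (1 / (w:ℝ)) := by field_simp; norm_num
  calc _ ≤ ∑ w ∈ V, 1056 * (1 / (w:ℝ)) := sum_le_sum hgroup
    _ = 1056 * ∑ w ∈ V, (1 / (w:ℝ)) := by rw [mul_sum]
    _ ≤ 1056 * 2 := mul_le_mul_of_nonneg_left (good_sum V hVg) (by norm_num)
    _ = 2112 := by norm_num

theorem sumB (y : ℝ × ℝ) (ψ : ℕ → ℝ) {r : ℕ} (hr : 0 < r) (hψr : 0 < ψ r) (A : Finset ℕ)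
    (hA : ∀ q ∈ A, 0 < q ∧ q ≠ r ∧ 0 ≤ ψ q ∧ ψ q ≤ ψ r ∧ condB y ψ q r) :
    ∑ q ∈ A, (1:ℝ) / ((max (q1 q r) (r1 q r) : ℕ) : ℝ)^2 ≤ 6144 := by
  classical
  have hlev : ∀ q ∈ A, ∃ j : ℕ, 3 ≤ j ∧ (1/2:ℝ)^(j+1) < eta ψ q r ∧ eta ψ q r ≤ (1/2:ℝ)^j := by
    intro q hq
    obtain ⟨h1, h2, h3, h4, h5, h6⟩ := hA q hq
    obtain ⟨a1, a2, a3, a4, a5, a6⟩ := red h1 hr
    have ha2 : (0:ℝ) < q1 q r := by exact_mod_cast a2
    have hη0 : 0 < eta ψ q r := by unfold eta; positivity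
    have h7 : (8:ℝ) ≤ 1 / eta ψ q r := by
      rw [le_div_iff₀ hη0]
      linarith
    obtain ⟨j, hj1, hj2⟩ := exists_nat_pow_near (x := 1 / eta ψ q r) (y := (2:ℝ)) (by linarith) (by norm_num)
    refine ⟨j, ?_, ?_, ?_⟩
    · by_contra hcon
      have : j + 1 ≤ 3 := by omega
      have h8 : (2:ℝ)^(j+1) ≤ 2^3 := pow_le_pow_right₀ (by norm_num) this
      norm_num at h8
      linarith
    · rw [one_div_pow]
      rw [div_lt_iff₀ hη0] at hj2
      rw [div_lt_iff₀ (by positivity)]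
      linarith
    · rw [one_div_pow]
      rw [le_div_iff₀ hη0] at hj1
      rw [le_div_iff₀ (by positivity)]
      linarith
  choose! j hj using hlev
  set J := A.image j with hJ
  rw [← sum_fiberwise_of_maps_to (t := J) (g := j) (fun q hq => mem_image_of_mem j hq)]
  have hgroup : ∀ i ∈ J, ∑ q ∈ A.filter (fun q => j q = i), (1:ℝ) / ((max (q1 q r) (r1 q r) : ℕ) : ℝ)^2 ≤
      1536 * (√(1/2))^i := by
    intro i hi
    set Ai := A.filter (fun q => j q = i) with hAi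
    have hi3 : 3 ≤ i := by
      obtain ⟨q, hq, rfl⟩ := mem_image.1 hi
      exact (hj q hq).1
    set δ := (1/2:ℝ)^i with hδ
    have hδ0 : 0 < δ := by positivity
    have hδ8 : δ ≤ 1/8 := by
      have : (1/2:ℝ)^i ≤ (1/2:ℝ)^3 := pow_le_pow_of_le_one (by norm_num) (by norm_num) hi3
      norm_num at this
      rw [hδ]
      norm_num
      linarith
    set T := Ai.image (fun q => (q1 q r, r1 q r)) with hT
    have hinj : Set.InjOn (fun q => (q1 q r, r1 q r)) (Ai : Set ℕ) := by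
      intro q hq q' hq' heq
      simp only [Prod.mk.injEq] at heq
      exact red_inj hr (hA q (mem_filter.1 hq).1).1 (hA q' (mem_filter.1 hq').1).1 heq.1 heq.2
    have hsum : ∑ q ∈ Ai, (1:ℝ) / ((max (q1 q r) (r1 q r) : ℕ) : ℝ)^2 =
        ∑ p ∈ T, (1:ℝ) / ((max p.1 p.2 : ℕ) : ℝ)^2 := by
      rw [hT, sum_image hinj]
    rw [hsum]
    have h := pair_sum (δ / ψ r) (12 * √δ) (by positivity) (by positivity) (ZZ y δ) T ?_ ?_
    · have e : √δ = (√(1/2))^i := by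
        rw [hδ, Real.sqrt_eq_rpow, Real.sqrt_eq_rpow, ← Real.rpow_natCast, ← Real.rpow_natCast,
          ← Real.rpow_mul (by norm_num), ← Real.rpow_mul (by norm_num)]
        congr 1
        ring
      rw [e] at h
      linarith
    · intro p hp
      obtain ⟨q, hq, rfl⟩ := mem_image.1 hp
      obtain ⟨hqA, hqi⟩ := mem_filter.1 hq
      obtain ⟨h1, h2, h3, h4, h5, h6⟩ := hA q hqA
      obtain ⟨a1, a2, a3, a4, a5, a6⟩ := red h1 hr
      obtain ⟨b1, b2, b3⟩ := hj q hqA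
      rw [hqi] at b2 b3
      have hne' : q1 q r ≠ r1 q r := red_ne h1 hr h2
      have ha2 : (0:ℝ) < q1 q r := by exact_mod_cast a2
      have ha3 : (0:ℝ) < r1 q r := by exact_mod_cast a3
      have heta : eta ψ q r = r1 q r * ψ q + q1 q r * ψ r := rfl
      refine ⟨a2, a3, hne', ?_, ?_, mem_ZZ b3 h6⟩
      · rw [le_div_iff₀ hψr]
        have : 0 ≤ r1 q r * ψ q := by positivity
        linarith
      · simp only
        have hM1 : (q1 q r : ℝ) ≤ ((max (q1 q r) (r1 q r) : ℕ) : ℝ) := by exact_mod_cast le_max_left _ _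
        have hM2 : (r1 q r : ℝ) ≤ ((max (q1 q r) (r1 q r) : ℕ) : ℝ) := by exact_mod_cast le_max_right _ _
        have h7 : eta ψ q r ≤ 2 * (((max (q1 q r) (r1 q r) : ℕ) : ℝ) * ψ r) := by
          rw [heta]
          have e1 : (r1 q r : ℝ) * ψ q ≤ ((max (q1 q r) (r1 q r) : ℕ) : ℝ) * ψ r :=
            mul_le_mul hM2 h4 h3 (by positivity)
          have e2 : (q1 q r : ℝ) * ψ r ≤ ((max (q1 q r) (r1 q r) : ℕ) : ℝ) * ψ r :=
            mul_le_mul_of_nonneg_right hM1 hψr.le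
          linarith
        have h8 : δ / 2 < eta ψ q r := by
          have : (1/2:ℝ)^(i+1) = δ / 2 := by rw [hδ, pow_succ]; ring
          linarith
        rw [div_div, div_lt_iff₀ (by positivity)]
        linarith
    · intro B F hF
      apply beta_count y δ hδ0 hδ8 B F
      intro m hm
      obtain ⟨h1, h2, h3⟩ := hF m hm
      exact ⟨h2, h3, h1⟩
  calc _ ≤ ∑ i ∈ J, 1536 * (√(1/2))^i := sum_le_sum hgroup
    _ = 1536 * ∑ i ∈ J, (√(1/2))^i := by rw [mul_sum]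
    _ ≤ 1536 * 4 := by
        apply mul_le_mul_of_nonneg_left _ (by norm_num)
        have hs : √(1/2) ≤ 3/4 := by
          rw [Real.sqrt_le_left (by norm_num)]
          norm_num
        have h1 : ∑ i ∈ J, (√(1/2))^i ≤ ∑ i ∈ J, (3/4:ℝ)^i :=
          sum_le_sum fun i _ => pow_le_pow_left₀ (by positivity) hs i
        have h2 := Summable.sum_le_tsum (f := fun i : ℕ => (3/4:ℝ)^i) J
          (fun i _ => by positivity) (summable_geometric_of_lt_one (by norm_num) (by norm_num))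
        rw [tsum_geometric_of_lt_one (by norm_num) (by norm_num)] at h2
        norm_num at h2
        linarith
    _ = 6144 := by norm_num

/-- one row of the overlap matrix -/
theorem row_sum (y : ℝ × ℝ) (ψ : ℕ → ℝ) (hψ : ∀ q, 0 ≤ ψ q) (S : Finset ℕ)
    (hS : ∀ q ∈ S, 0 < q ∧ 0 < ψ q) {r : ℕ} (hr : r ∈ S) :
    ∑ q ∈ S.filter (fun q => q ≠ r ∧ ψ q ≤ ψ r), ov y ψ q r ≤
      1600 * ψ r ^ 2 * (∑ q ∈ S, ψ q ^ 2) + 33024 * ψ r ^ 2 := by
  classical
  obtain ⟨hr0, hψr⟩ := hS r hr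
  set W := S.filter (fun q => q ≠ r ∧ ψ q ≤ ψ r) with hW
  set w : ℕ → ℝ := fun q => 4 * ψ r ^ 2 * (1 / ((max (q1 q r) (r1 q r) : ℕ) : ℝ)^2) with hw
  have hw0 : ∀ q, 0 ≤ w q := fun q => by rw [hw]; positivity
  have hpt : ∀ q ∈ W, ov y ψ q r ≤ 1600 * ψ q ^ 2 * ψ r ^ 2 +
      ((if condA y q r then w q else 0) + (if condB y ψ q r then w q else 0)) := by
    intro q hq
    obtain ⟨hqS, hne, hle⟩ := mem_filter.1 hq
    have h0 : 0 ≤ 1600 * ψ q ^ 2 * ψ r ^ 2 := by positivity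
    have hA0 : 0 ≤ (if condA y q r then w q else 0) := by
      split_ifs
      · exact hw0 q
      · exact le_rfl
    have hB0 : 0 ≤ (if condB y ψ q r then w q else 0) := by
      split_ifs
      · exact hw0 q
      · exact le_rfl
    rcases ov_le y ψ hψ (hS q hqS).1 hr0 hne hle with h | ⟨h1, h2⟩
    · linarith
    · rcases h2 with h2 | h2
      · rw [if_pos h2] at hA0 ⊢
        have : ov y ψ q r ≤ w q := h1
        linarith
      · rw [if_pos h2] at hB0 ⊢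
        have : ov y ψ q r ≤ w q := h1
        linarith
  have hsA : ∑ q ∈ W, (if condA y q r then w q else 0) ≤ 4 * ψ r ^ 2 * 2112 := by
    rw [← sum_filter]
    have := sumA y hr0 (W.filter (fun q => condA y q r)) (fun q hq => by
      obtain ⟨h1, h2⟩ := mem_filter.1 hq
      obtain ⟨h3, h4, h5⟩ := mem_filter.1 h1
      exact ⟨(hS q h3).1, h4, h2⟩)
    rw [hw, ← mul_sum]
    exact mul_le_mul_of_nonneg_left this (by positivity)
  have hsB : ∑ q ∈ W, (if condB y ψ q r then w q else 0) ≤ 4 * ψ r ^ 2 * 6144 := by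
    rw [← sum_filter]
    have := sumB y ψ hr0 hψr (W.filter (fun q => condB y ψ q r)) (fun q hq => by
      obtain ⟨h1, h2⟩ := mem_filter.1 hq
      obtain ⟨h3, h4, h5⟩ := mem_filter.1 h1
      exact ⟨(hS q h3).1, h4, hψ q, h5, h2⟩)
    rw [hw, ← mul_sum]
    exact mul_le_mul_of_nonneg_left this (by positivity)
  have hs1 : ∑ q ∈ W, 1600 * ψ q ^ 2 * ψ r ^ 2 ≤ 1600 * ψ r ^ 2 * (∑ q ∈ S, ψ q ^ 2) := by
    rw [mul_sum]
    calc ∑ q ∈ W, 1600 * ψ q ^ 2 * ψ r ^ 2 ≤ ∑ q ∈ S, 1600 * ψ q ^ 2 * ψ r ^ 2 :=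
          sum_le_sum_of_subset_of_nonneg (filter_subset _ _) (fun _ _ _ => by positivity)
      _ = _ := sum_congr rfl fun q _ => by ring
  calc ∑ q ∈ W, ov y ψ q r ≤ ∑ q ∈ W, (1600 * ψ q ^ 2 * ψ r ^ 2 +
      ((if condA y q r then w q else 0) + (if condB y ψ q r then w q else 0))) := sum_le_sum hpt
    _ = ∑ q ∈ W, 1600 * ψ q ^ 2 * ψ r ^ 2 + (∑ q ∈ W, (if condA y q r then w q else 0) +
        ∑ q ∈ W, (if condB y ψ q r then w q else 0)) := by rw [sum_add_distrib, sum_add_distrib]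
    _ ≤ _ := by linarith

theorem ov_symm (y : ℝ × ℝ) (ψ : ℕ → ℝ) (q r : ℕ) : ov y ψ q r = ov y ψ r q := by
  unfold ov
  rw [Set.inter_comm]

theorem ov_nonneg (y : ℝ × ℝ) (ψ : ℕ → ℝ) (q r : ℕ) : 0 ≤ ov y ψ q r := ENNReal.toReal_nonneg

theorem vol_E_le (y : ℝ × ℝ) (ψ : ℕ → ℝ) (hψ : ∀ q, 0 ≤ ψ q) {q : ℕ} (hq : 0 < q) :
    volume (E y ψ q) ≤ ENNReal.ofReal (4 * ψ q ^ 2) := by
  classical
  have hq' : (0:ℝ) < q := by exact_mod_cast hq
  have h0 := hψ q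
  refine (measure_biUnion_finset_le _ _).trans ?_
  have h1 : ∑ a ∈ Sel y q, volume (Metric.ball (ctr y q a) (ψ q / q)) =
      (Sel y q).card * ENNReal.ofReal ((2*(ψ q / q))^2) := by
    rw [sum_congr rfl fun a _ => vol_ball (ctr y q a) (ψ q / q) (by positivity), sum_const, nsmul_eq_mul]
  rw [h1]
  have h2 : (Sel y q).card ≤ q * q := by
    have h3 : Sel y q ⊆ (Ico (0:ℤ) q) ×ˢ (Ico (0:ℤ) q) := by
      intro a ha
      have := (mem_Sel.1 ha).1
      simp only [mem_product, mem_Ico]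
      exact this
    have := card_le_card h3
    simpa using this
  rw [← ENNReal.ofReal_natCast, ← ENNReal.ofReal_mul (by positivity)]
  apply ENNReal.ofReal_le_ofReal
  have h3 : ((Sel y q).card : ℝ) ≤ q * q := by exact_mod_cast h2
  calc ((Sel y q).card : ℝ) * (2*(ψ q / q))^2 ≤ (q * q) * (2*(ψ q / q))^2 :=
        mul_le_mul_of_nonneg_right h3 (by positivity)
    _ = 4 * ψ q ^ 2 := by field_simp; ring

/-- quasi-independence on average -/
theorem total (y : ℝ × ℝ) (ψ : ℕ → ℝ) (hψ : ∀ q, 0 ≤ ψ q) (S : Finset ℕ)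
    (hS : ∀ q ∈ S, 0 < q ∧ 0 < ψ q) :
    ∑ r ∈ S, ∑ q ∈ S, ov y ψ q r ≤ 3200 * (∑ q ∈ S, ψ q ^ 2)^2 + 66052 * (∑ q ∈ S, ψ q ^ 2) := by
  classical
  set Ψ := ∑ q ∈ S, ψ q ^ 2 with hΨ
  have hpt : ∀ r ∈ S, ∀ q ∈ S, ov y ψ q r ≤ (if q = r then 4 * ψ r ^ 2 else 0) +
      ((if q ≠ r ∧ ψ q ≤ ψ r then ov y ψ q r else 0) + (if r ≠ q ∧ ψ r ≤ ψ q then ov y ψ r q else 0)) := by
    intro r hr q hq
    have n1 : 0 ≤ (if q ≠ r ∧ ψ q ≤ ψ r then ov y ψ q r else 0) := by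
      split_ifs
      · exact ov_nonneg _ _ _ _
      · exact le_rfl
    have n2 : 0 ≤ (if r ≠ q ∧ ψ r ≤ ψ q then ov y ψ r q else 0) := by
      split_ifs
      · exact ov_nonneg _ _ _ _
      · exact le_rfl
    by_cases h : q = r
    · subst h
      rw [if_pos rfl]
      have h1 : ov y ψ q q ≤ 4 * ψ q ^ 2 := by
        unfold ov
        rw [Set.inter_self]
        exact ENNReal.toReal_le_of_le_ofReal (by positivity) (vol_E_le y ψ hψ (hS q hq).1)
      linarith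
    · rw [if_neg h]
      rcases le_total (ψ q) (ψ r) with hc | hc
      · rw [if_pos ⟨h, hc⟩]
        linarith
      · have h' : r ≠ q := fun e => h e.symm
        rw [if_pos (⟨h', hc⟩ : r ≠ q ∧ ψ r ≤ ψ q)]
        rw [ov_symm y ψ q r] at *
        linarith
  have s1 : ∑ r ∈ S, ∑ q ∈ S, (if q = r then 4 * ψ r ^ 2 else 0) = 4 * Ψ := by
    rw [hΨ, mul_sum]
    refine sum_congr rfl fun r hr => ?_
    rw [sum_ite_eq' S r]
    rw [if_pos hr]
  have s2 : ∑ r ∈ S, ∑ q ∈ S, (if q ≠ r ∧ ψ q ≤ ψ r then ov y ψ q r else 0) ≤ 1600 * Ψ^2 + 33024 * Ψ := by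
    calc ∑ r ∈ S, ∑ q ∈ S, (if q ≠ r ∧ ψ q ≤ ψ r then ov y ψ q r else 0)
        ≤ ∑ r ∈ S, (1600 * ψ r ^ 2 * Ψ + 33024 * ψ r ^ 2) := by
          refine sum_le_sum fun r hr => ?_
          rw [← sum_filter]
          exact row_sum y ψ hψ S hS hr
      _ = 1600 * Ψ^2 + 33024 * Ψ := by
          rw [sum_add_distrib, ← mul_sum]
          have : ∑ r ∈ S, 1600 * ψ r ^ 2 * Ψ = 1600 * Ψ * Ψ := by
            rw [← sum_mul, ← mul_sum]
          rw [this]
          ring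
  have s3 : ∑ r ∈ S, ∑ q ∈ S, (if r ≠ q ∧ ψ r ≤ ψ q then ov y ψ r q else 0) ≤ 1600 * Ψ^2 + 33024 * Ψ := by
    rw [sum_comm]
    exact s2
  calc ∑ r ∈ S, ∑ q ∈ S, ov y ψ q r ≤ ∑ r ∈ S, ∑ q ∈ S, ((if q = r then 4 * ψ r ^ 2 else 0) +
      ((if q ≠ r ∧ ψ q ≤ ψ r then ov y ψ q r else 0) + (if r ≠ q ∧ ψ r ≤ ψ q then ov y ψ r q else 0))) :=
        sum_le_sum fun r hr => sum_le_sum fun q hq => hpt r hr q hq
    _ = ∑ r ∈ S, ∑ q ∈ S, (if q = r then 4 * ψ r ^ 2 else 0) +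
        (∑ r ∈ S, ∑ q ∈ S, (if q ≠ r ∧ ψ q ≤ ψ r then ov y ψ q r else 0) +
        ∑ r ∈ S, ∑ q ∈ S, (if r ≠ q ∧ ψ r ≤ ψ q then ov y ψ r q else 0)) := by
          simp only [sum_add_distrib]
    _ ≤ _ := by linarith

end Pool.Agent.R331.K2
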