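import Pool.Agent.R331.K2.Dio

set_option autoImplicit false

namespace Pool.Agent.R331.K2

open Finset

/-- The selected numerators modulo `q`. -/
noncomputable def Sel (y : ℝ × ℝ) (q : ℕ) : Finset (ℤ × ℤ) := by
  classical
  exact ((Ico (0:ℤ) q) ×ˢ (Ico (0:ℤ) q)).filter (fun a => ∀ (v : ℕ) (u : ℤ × ℤ) (g : ℕ), Good y v u →
    g ∣ q → (g:ℤ) ∣ v * a.1 + u.1 → (g:ℤ) ∣ v * a.2 + u.2 → g ≤ 32 * v)

theorem mem_Sel {y : ℝ × ℝ} {q : ℕ} {a : ℤ × ℤ} : a ∈ Sel y q ↔
    ((0 ≤ a.1 ∧ a.1 < q) ∧ (0 ≤ a.2 ∧ a.2 < q)) ∧ ∀ (v : ℕ) (u : ℤ × ℤ) (g : ℕ), Good y v u →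
    g ∣ q → (g:ℤ) ∣ v * a.1 + u.1 → (g:ℤ) ∣ v * a.2 + u.2 → g ≤ 32 * v := by
  unfold Sel
  simp only [mem_filter, mem_product, mem_Ico]

theorem good_unique {y : ℝ × ℝ} {v : ℕ} {u u' : ℤ × ℤ} (h : Good y v u) (h' : Good y v u') :
    u = u' := by
  obtain ⟨hv, hp, h1, h2⟩ := h
  obtain ⟨-, hp', h1', h2'⟩ := h'
  have hvr : (1:ℝ) ≤ v := by exact_mod_cast hv
  have key : ∀ (a : ℝ) (s t : ℤ), (v:ℝ) * |v * a - s| < 1/16 → (v:ℝ) * |v * a - t| < 1/16 →
      s = t := by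
    intro a s t e1 e2
    have e3 : |(s - t : ℤ)| < (1:ℤ) := by
      have : |((s - t : ℤ) : ℝ)| < 1 := by
        push_cast
        have e4 : (s:ℝ) - t = (v * a - t) - (v * a - s) := by ring
        rw [e4]
        refine lt_of_le_of_lt (abs_sub _ _) ?_
        nlinarith [abs_nonneg ((v:ℝ) * a - s), abs_nonneg ((v:ℝ) * a - t)]
      exact_mod_cast this
    have := Int.abs_lt_one_iff.1 e3
    linarith
  exact Prod.ext (key _ _ _ h1 h1') (key _ _ _ h2 h2')

/-- numerators in a box which are divisible -/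
theorem card_R {y : ℝ × ℝ} (v g X : ℕ) (hg : 0 < g) (s t : ℤ) (R : Finset (ℤ × ℤ))
    (hR : ∀ a ∈ R, (s ≤ a.1 ∧ a.1 < s + X) ∧ (t ≤ a.2 ∧ a.2 < t + X) ∧
      ∃ u, Good y v u ∧ (g:ℤ) ∣ v * a.1 + u.1 ∧ (g:ℤ) ∣ v * a.2 + u.2) :
    R.card ≤ (X / g + 1) ^ 2 := by
  classical
  have hinj : Set.InjOn (fun a : ℤ × ℤ => ((a.1 - s).toNat / g, (a.2 - t).toNat / g)) (R : Set (ℤ × ℤ)) := by
    intro a ha b hb hab
    obtain ⟨⟨a1, a2⟩, ⟨a3, a4⟩, u, hu, a5, a6⟩ := hR a ha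
    obtain ⟨⟨b1, b2⟩, ⟨b3, b4⟩, u', hu', b5, b6⟩ := hR b hb
    obtain rfl := good_unique hu hu'
    have hcop : Int.gcd (g:ℤ) v = 1 := by
      have h1 : Int.gcd (g:ℤ) v = Nat.gcd g v := by simp [Int.gcd]
      rw [h1]
      have hd : Nat.gcd g v ∣ Nat.gcd v (Int.gcd u.1 u.2) := by
        apply Nat.dvd_gcd (Nat.gcd_dvd_right _ _)
        have hgz : ((Nat.gcd g v : ℕ) : ℤ) ∣ g := by exact_mod_cast Nat.gcd_dvd_left g v
        have hvz : ((Nat.gcd g v : ℕ) : ℤ) ∣ v := by exact_mod_cast Nat.gcd_dvd_right g v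
        have e1 : ((Nat.gcd g v : ℕ) : ℤ) ∣ u.1 :=
          (dvd_add_right (hvz.mul_right _)).1 (hgz.trans a5)
        have e2 : ((Nat.gcd g v : ℕ) : ℤ) ∣ u.2 :=
          (dvd_add_right (hvz.mul_right _)).1 (hgz.trans a6)
        have := Int.dvd_coe_gcd e1 e2
        exact_mod_cast this
      have hp : Nat.gcd v (Int.gcd u.1 u.2) = 1 := hu.2.1
      rw [hp] at hd
      exact Nat.dvd_one.1 hd
    have key : ∀ (x z c w : ℤ), (g:ℤ) ∣ v * x + c → (g:ℤ) ∣ v * z + c → w ≤ x → w ≤ z →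
        (x - w).toNat / g = (z - w).toNat / g → x = z := by
      intro x z c w h1 h2 h3 h4 h5
      have h6 : (g:ℤ) ∣ v * (x - z) := by
        have := dvd_sub h1 h2
        have e : (v:ℤ) * x + c - (v * z + c) = v * (x - z) := by ring
        rwa [e] at this
      have h7 : (g:ℤ) ∣ (x - z) := Int.dvd_of_dvd_mul_right_of_gcd_one h6 hcop
      obtain ⟨c1, hc1⟩ := Int.eq_ofNat_of_zero_le (sub_nonneg.2 h3)
      obtain ⟨c2, hc2⟩ := Int.eq_ofNat_of_zero_le (sub_nonneg.2 h4)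
      rw [hc1, hc2, Int.toNat_natCast, Int.toNat_natCast] at h5
      have h8 : (g:ℤ) ∣ (c1:ℤ) - c2 := by
        have e : (c1:ℤ) - c2 = x - z := by rw [← hc1, ← hc2]; ring
        rwa [e]
      have h9 : c1 % g = c2 % g := by
        have h10 : (c1:ℤ) % g = (c2:ℤ) % g := Int.emod_eq_emod_iff_emod_sub_eq_zero.2 (Int.emod_eq_zero_of_dvd h8)
        exact_mod_cast h10
      have h11 := Nat.div_add_mod c1 g
      have h12 := Nat.div_add_mod c2 g
      rw [h5, h9] at h11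
      have h13 : c1 = c2 := by omega
      have : x - w = z - w := by rw [hc1, hc2, h13]
      linarith
    simp only [Prod.mk.injEq] at hab
    exact Prod.ext (key _ _ _ _ a5 b5 a1 b1 hab.1) (key _ _ _ _ a6 b6 a3 b3 hab.2)
  have hmaps : Set.MapsTo (fun a : ℤ × ℤ => ((a.1 - s).toNat / g, (a.2 - t).toNat / g)) (R : Set (ℤ × ℤ))
      ((range (X/g+1)) ×ˢ (range (X/g+1)) : Finset (ℕ × ℕ)) := by
    intro a ha
    obtain ⟨⟨a1, a2⟩, ⟨a3, a4⟩, -⟩ := hR a ha
    simp only [coe_product, Set.mem_prod, coe_range, Set.mem_Iio]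
    refine ⟨Nat.lt_succ_of_le (Nat.div_le_div_right ?_), Nat.lt_succ_of_le (Nat.div_le_div_right ?_)⟩ <;> omega
  have h := Finset.card_le_card_of_injOn _ hmaps hinj
  rw [card_product, card_range] at h
  rw [sq]
  exact h

theorem sum_inv_sq (D : Finset ℕ) (N : ℕ) (hN : 0 < N) (hD : ∀ g ∈ D, N < g) :
    ∑ g ∈ D, (1:ℝ) / (g:ℝ)^2 ≤ 1 / N := by
  set M := N + D.sup id with hM
  have hsub : D ⊆ Ioc N M := by
    intro g hg
    rw [mem_Ioc]
    exact ⟨hD g hg, (Finset.le_sup (f := id) hg).trans (by simp [hM])⟩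
  calc ∑ g ∈ D, (1:ℝ) / (g:ℝ)^2 ≤ ∑ g ∈ Ioc N M, (1:ℝ) / (g:ℝ)^2 :=
        sum_le_sum_of_subset_of_nonneg hsub (fun _ _ _ => by positivity)
    _ = ∑ g ∈ Ioc N M, ((g:ℝ)^2)⁻¹ := by simp [one_div]
    _ ≤ (N:ℝ)⁻¹ - (M:ℝ)⁻¹ := sum_Ioc_inv_sq_le_sub hN.ne' (by omega)
    _ ≤ 1 / N := by
        rw [one_div]
        have : (0:ℝ) ≤ (M:ℝ)⁻¹ := by positivity
        linarith

theorem card_div (q X : ℕ) (hq : 0 < q) (hX : 0 < X) :
    ((Nat.divisors q).filter (fun g => X < g)).card ≤ q / X := by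
  have h : ((Nat.divisors q).filter (fun g => X < g)).card ≤ (Icc 1 (q/X)).card := by
    refine Finset.card_le_card_of_injOn (fun g => q / g) ?_ ?_
    · intro g hg
      simp only [coe_filter, Nat.mem_divisors, Set.mem_ofPred_eq] at hg
      obtain ⟨⟨h1, -⟩, h2⟩ := hg
      simp only [coe_Icc, Set.mem_Icc]
      refine ⟨Nat.div_pos (Nat.le_of_dvd hq h1) (by omega), ?_⟩
      rw [Nat.le_div_iff_mul_le hX]
      calc q / g * X ≤ q / g * g := Nat.mul_le_mul_left _ h2.le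
        _ ≤ q := Nat.div_mul_le_self q g
    · intro g hg g' hg' heq
      simp only [coe_filter, Nat.mem_divisors, Set.mem_ofPred_eq] at hg hg'
      obtain ⟨⟨h1, -⟩, h2⟩ := hg
      obtain ⟨⟨h1', -⟩, h2'⟩ := hg'
      simp only at heq
      have e1 := Nat.div_mul_cancel h1
      have e2 := Nat.div_mul_cancel h1'
      rw [heq] at e1
      have h3 : 0 < q / g' := Nat.div_pos (Nat.le_of_dvd hq h1') (by omega)
      exact Nat.eq_of_mul_eq_mul_left h3 (e1.trans e2.symm)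
  simpa using h

/-- many numerators of a box are selected -/
theorem sel_box (y : ℝ × ℝ) (q L X : ℕ) (hL : 0 < L) (hq : 512 * L^3 ≤ q) (hX : q ≤ 4 * L * X)
    (s t : ℤ) (hs : 0 ≤ s) (hs' : s + X ≤ q) (ht : 0 ≤ t) (ht' : t + X ≤ q) :
    (X:ℝ)^2 ≤ 2 * (((Sel y q).filter (fun a => (s ≤ a.1 ∧ a.1 < s + X) ∧ (t ≤ a.2 ∧ a.2 < t + X))).card : ℝ) := by
  classical
  have hL3 : 0 < L^3 := by positivity
  have hq0 : 0 < q := by omega
  have hX0 : 0 < X := by
    rcases Nat.eq_zero_or_pos X with h | h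
    · rw [h] at hX; omega
    · exact h
  set I := (Ico s (s+X)) ×ˢ (Ico t (t+X)) with hI
  set G := (Sel y q).filter (fun a => (s ≤ a.1 ∧ a.1 < s + X) ∧ (t ≤ a.2 ∧ a.2 < t + X)) with hG
  set V := (Icc 1 q).filter (fun v => ∃ u, Good y v u) with hV
  set D : ℕ → Finset ℕ := fun v => (Nat.divisors q).filter (fun g => 32 * v < g) with hD
  set R : ℕ → ℕ → Finset (ℤ × ℤ) := fun v g => I.filter (fun a => ∃ u, Good y v u ∧
    (g:ℤ) ∣ v * a.1 + u.1 ∧ (g:ℤ) ∣ v * a.2 + u.2) with hR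
  have hcover : I ⊆ G ∪ V.biUnion (fun v => (D v).biUnion (fun g => R v g)) := by
    intro a ha
    by_cases haG : a ∈ G
    · exact mem_union_left _ haG
    · apply mem_union_right
      have ha' := ha
      simp only [hI, mem_product, mem_Ico] at ha'
      have hnS : a ∉ Sel y q := by
        intro h
        apply haG
        rw [hG, mem_filter]
        exact ⟨h, ha'⟩
      rw [mem_Sel] at hnS
      have h1 : (0 ≤ a.1 ∧ a.1 < q) ∧ (0 ≤ a.2 ∧ a.2 < q) := by omega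
      simp only [h1, true_and, not_forall, and_self] at hnS
      obtain ⟨v, u, g, hgood, hgq, hg1, hg2, hlt⟩ := hnS
      push Not at hlt
      have hgle : g ≤ q := Nat.le_of_dvd hq0 hgq
      simp only [mem_biUnion, hV, hD, hR, mem_filter, mem_Icc, Nat.mem_divisors]
      have := hgood.1
      exact ⟨v, ⟨⟨this, by omega⟩, u, hgood⟩, g, ⟨⟨hgq, hq0.ne'⟩, hlt⟩, ha, u, hgood, hg1, hg2⟩
  have hcard : (X:ℝ)^2 ≤ (G.card:ℝ) + ∑ v ∈ V, ∑ g ∈ D v, ((R v g).card : ℝ) := by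
    have h1 := (card_le_card hcover).trans (card_union_le _ _)
    have h2 : (V.biUnion (fun v => (D v).biUnion (fun g => R v g))).card ≤
        ∑ v ∈ V, ∑ g ∈ D v, (R v g).card :=
      card_biUnion_le.trans (sum_le_sum fun v _ => card_biUnion_le)
    have h3 : I.card = X ^ 2 := by
      simp [hI, sq]
    have h4 : X^2 ≤ G.card + ∑ v ∈ V, ∑ g ∈ D v, (R v g).card := by omega
    exact_mod_cast h4
  have hterm : ∀ v ∈ V, ∀ g ∈ D v, ((R v g).card : ℝ) ≤ 4 * X^2 * (1/(g:ℝ)^2) + if X < g then 1 else 0 := by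
    intro v hv g hg
    have hg0 : 0 < g := Nat.pos_of_dvd_of_pos (Nat.mem_divisors.1 (mem_filter.1 hg).1).1 hq0
    have h1 : (R v g).card ≤ (X / g + 1)^2 := by
      apply card_R (y := y) v g X hg0 s t
      intro a ha
      simp only [hR, hI, mem_filter, mem_product, mem_Ico] at ha
      exact ⟨ha.1.1, ha.1.2, ha.2⟩
    have h1' : ((R v g).card : ℝ) ≤ (((X / g : ℕ):ℝ) + 1)^2 := by exact_mod_cast h1
    have hgr : (0:ℝ) < g := by exact_mod_cast hg0
    split_ifs with hc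
    · have : X / g = 0 := Nat.div_eq_of_lt hc
      rw [this] at h1'
      have h5 : (0:ℝ) ≤ 4 * X^2 * (1/(g:ℝ)^2) := by positivity
      have h6 : ((R v g).card : ℝ) ≤ 1 := by simpa using h1'
      linarith
    · push Not at hc
      have h2 : ((X / g : ℕ):ℝ) ≤ (X:ℝ) / g := Nat.cast_div_le
      have h3 : (1:ℝ) ≤ (X:ℝ) / g := by
        rw [le_div_iff₀ hgr, one_mul]
        exact_mod_cast hc
      have h4 : (((X / g : ℕ):ℝ) + 1)^2 ≤ (2 * ((X:ℝ)/g))^2 := by
        apply pow_le_pow_left₀ (by positivity)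
        linarith
      have h5 : (2 * ((X:ℝ)/g))^2 = 4 * X^2 * (1/(g:ℝ)^2) := by
        rw [mul_pow, div_pow]
        ring
      linarith
  have hVsum : ∑ v ∈ V, (1:ℝ)/v ≤ 2 := good_sum V (fun v hv => (mem_filter.1 hv).2)
  have hVcard : (V.card:ℝ) ≤ 2 * q := by
    have h1 : (V.card:ℝ) ≤ ∑ v ∈ V, (q:ℝ) * (1/v) := by
      have : (V.card:ℝ) = ∑ v ∈ V, (1:ℝ) := by simp
      rw [this]
      refine sum_le_sum fun v hv => ?_
      have h2 := mem_Icc.1 (mem_filter.1 hv).1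
      have h3 : (0:ℝ) < v := by exact_mod_cast h2.1
      have h4 : (v:ℝ) ≤ q := by exact_mod_cast h2.2
      rw [mul_one_div, le_div_iff₀ h3]
      linarith
    rw [← mul_sum] at h1
    have hqr : (0:ℝ) ≤ q := by positivity
    nlinarith
  have hbound : ∑ v ∈ V, ∑ g ∈ D v, ((R v g).card : ℝ) ≤ X^2/4 + 8 * L * q := by
    calc ∑ v ∈ V, ∑ g ∈ D v, ((R v g).card : ℝ)
        ≤ ∑ v ∈ V, ∑ g ∈ D v, (4 * X^2 * (1/(g:ℝ)^2) + if X < g then 1 else 0) :=
          sum_le_sum fun v hv => sum_le_sum fun g hg => hterm v hv g hg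
      _ ≤ ∑ v ∈ V, (4 * X^2 * (1/(32*(v:ℝ))) + 4 * L) := by
          refine sum_le_sum fun v hv => ?_
          rw [sum_add_distrib, ← mul_sum]
          have hv0 : 0 < v := (mem_Icc.1 (mem_filter.1 hv).1).1
          have h1 : ∑ g ∈ D v, (1:ℝ)/(g:ℝ)^2 ≤ 1/(32*(v:ℝ)) := by
            have := sum_inv_sq (D v) (32*v) (by omega) (fun g hg => (mem_filter.1 hg).2)
            push_cast at this
            exact this
          have h2 : ∑ g ∈ D v, (if X < g then (1:ℝ) else 0) ≤ 4 * L := by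
            have h3 : ∑ g ∈ D v, (if X < g then (1:ℝ) else 0) ≤
                ∑ g ∈ Nat.divisors q, (if X < g then (1:ℝ) else 0) :=
              sum_le_sum_of_subset_of_nonneg (filter_subset _ _) (fun _ _ _ => by positivity)
            have h4 : ∑ g ∈ Nat.divisors q, (if X < g then (1:ℝ) else 0) =
                (((Nat.divisors q).filter (fun g => X < g)).card : ℝ) := by
              rw [← sum_filter]
              simp
            have h5 := card_div q X hq0 hX0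
            have h6 : q / X ≤ 4 * L := by
              apply Nat.div_le_of_le_mul
              linarith
            have h7 : (((Nat.divisors q).filter (fun g => X < g)).card : ℝ) ≤ ((4 * L : ℕ) : ℝ) := by
              exact_mod_cast h5.trans h6
            push_cast at h7
            linarith
          have h8 : (0:ℝ) ≤ 4 * (X:ℝ)^2 := by positivity
          exact add_le_add (mul_le_mul_of_nonneg_left h1 h8) h2
      _ = (X:ℝ)^2/8 * ∑ v ∈ V, (1:ℝ)/v + 4 * L * V.card := by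
          rw [sum_add_distrib, mul_sum]
          congr 1
          · refine sum_congr rfl fun v hv => ?_
            have hv0 : 0 < v := (mem_Icc.1 (mem_filter.1 hv).1).1
            have : (v:ℝ) ≠ 0 := by positivity
            field_simp
            norm_num
          · rw [sum_const, nsmul_eq_mul]
            ring
      _ ≤ X^2/4 + 8 * L * q := by
          have h1 : (X:ℝ)^2/8 * ∑ v ∈ V, (1:ℝ)/v ≤ (X:ℝ)^2/8 * 2 :=
            mul_le_mul_of_nonneg_left hVsum (by positivity)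
          have h2 : 4 * (L:ℝ) * V.card ≤ 4 * L * (2 * q) :=
            mul_le_mul_of_nonneg_left hVcard (by positivity)
          linarith
  have hfin : 8 * (L:ℝ) * q ≤ X^2/4 := by
    have h1 : (q:ℝ) ≤ 4 * L * X := by exact_mod_cast hX
    have h2 : (512:ℝ) * L^3 ≤ q := by exact_mod_cast hq
    have hLr : (0:ℝ) < L := by exact_mod_cast hL
    have hqr : (0:ℝ) < q := by exact_mod_cast hq0
    have h3 : (q:ℝ)^2 ≤ 16 * L^2 * X^2 := by nlinarith
    have h4 : 512 * (L:ℝ)^3 * q ≤ 16 * L^2 * X^2 := by nlinarith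
    have h5 : 16 * (L:ℝ)^2 * (32 * L * q) ≤ 16 * L^2 * X^2 := by linarith
    have h6 := le_of_mul_le_mul_left h5 (by positivity)
    linarith
  linarith

end Pool.Agent.R331.K2
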